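import Mathlib

set_option autoImplicit false

open Set Filter Topology MeasureTheory
open scoped ContDiff

namespace Pool.Agent.TH306.GF

/-- denominator polynomial -/
def Dp (x G C : ℝ) : ℝ := C ^ 3 - 2 * x * G * C + 2 * x
/-- numerator polynomial -/
def Rp (x G C : ℝ) : ℝ :=
  4 * x ^ 2 * (1 - G ^ 2) - 4 * x * C - 3 * C ^ 4 + 8 * x * C ^ 2 * G

def dx (x G C : ℝ) : ℝ := 6 * x ^ 2 * Dp x G C
def dG (x G C : ℝ) : ℝ := C * Rp x G C + (3 * C ^ 2 - 8 * x * G) * Dp x G C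
def dC (x G C : ℝ) : ℝ := 2 * x * Rp x G C

/-- the polynomial vector field -/
def vf (y : ℝ × ℝ × ℝ) : ℝ × ℝ × ℝ :=
  (dx y.1 y.2.1 y.2.2, dG y.1 y.2.1 y.2.2, dC y.1 y.2.1 y.2.2)

lemma contDiff_vf : ContDiff ℝ ∞ vf := by
  unfold vf dx dG dC Dp Rp
  fun_prop

/-- A local solution of the profile system. -/
structure Prof where
  δ : ℝ
  hδ : 0 < δ
  x : ℝ → ℝ
  G : ℝ → ℝ
  C : ℝ → ℝ
  x0 : x 0 = 3 / 2
  G0 : G 0 = 1
  C0 : C 0 = 0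
  sx : ContDiffOn ℝ ∞ x (Ioo (-δ) δ)
  sG : ContDiffOn ℝ ∞ G (Ioo (-δ) δ)
  sC : ContDiffOn ℝ ∞ C (Ioo (-δ) δ)
  hx : ∀ τ ∈ Ioo (-δ) δ, HasDerivAt x (dx (x τ) (G τ) (C τ)) τ
  hG : ∀ τ ∈ Ioo (-δ) δ, HasDerivAt G (dG (x τ) (G τ) (C τ)) τ
  hC : ∀ τ ∈ Ioo (-δ) δ, HasDerivAt C (dC (x τ) (G τ) (C τ)) τ

theorem exists_prof : Nonempty Prof := by
  have hv : ContDiffAt ℝ 1 vf ((3 / 2, 1, 0) : ℝ × ℝ × ℝ) :=
    (contDiff_vf.of_le (by exact_mod_cast le_top)).contDiffAt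
  obtain ⟨α, hα0, ε, hε, hα⟩ :=
    hv.exists_forall_mem_closedBall_exists_eq_forall_mem_Ioo_hasDerivAt₀ 0
  simp only [zero_sub, zero_add] at hα
  have hε2 : 0 < ε / 2 := by linarith
  have hsub : Icc (-(ε / 2)) (ε / 2) ⊆ Ioo (-ε) ε := fun t ht => ⟨by linarith [ht.1], by linarith [ht.2]⟩
  have hsm : ContDiffOn ℝ ∞ α (Icc (-(ε / 2)) (ε / 2)) := by
    refine ODE.contDiffOn_enat_Icc_of_hasDerivWithinAt (n := ⊤) (f := fun _ => vf) (u := univ)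
      ?_ (fun t ht => (hα t (hsub ht)).hasDerivWithinAt) (fun _ _ => mem_univ _)
    exact (contDiff_vf.comp contDiff_snd).contDiffOn
  have hsm' : ContDiffOn ℝ ∞ α (Ioo (-(ε / 2)) (ε / 2)) := hsm.mono Ioo_subset_Icc_self
  have hd : ∀ τ ∈ Ioo (-(ε / 2)) (ε / 2), HasDerivAt α (vf (α τ)) τ :=
    fun τ hτ => hα τ (hsub (Ioo_subset_Icc_self hτ))
  refine ⟨⟨ε / 2, hε2, fun τ => (α τ).1, fun τ => (α τ).2.1, fun τ => (α τ).2.2, ?_, ?_, ?_,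
    ?_, ?_, ?_, ?_, ?_, ?_⟩⟩
  · simp [hα0]
  · simp [hα0]
  · simp [hα0]
  · exact contDiff_fst.comp_contDiffOn hsm'
  · exact (contDiff_fst.comp contDiff_snd).comp_contDiffOn hsm'
  · exact (contDiff_snd.comp contDiff_snd).comp_contDiffOn hsm'
  · intro τ hτ
    exact (hd τ hτ).fst
  · intro τ hτ
    exact (hd τ hτ).snd.fst
  · intro τ hτ
    exact (hd τ hτ).snd.snd

end Pool.Agent.TH306.GF
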