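import Mathlib

set_option autoImplicit false

open Set Filter Topology MeasureTheory
open scoped ContDiff

namespace Pool.Agent.TH306.GF

/-- A closed one-form `B dt + A dτ` with continuous coefficients on a rectangle has a potential. -/
theorem exists_potential {a b c d t₀ τ₀ : ℝ} (ht₀ : t₀ ∈ Ioo a b) (hτ₀ : τ₀ ∈ Ioo c d)
    {A B K : ℝ → ℝ → ℝ}
    (hAc : ContinuousOn (fun p : ℝ × ℝ => A p.1 p.2) (Ioo a b ×ˢ Ioo c d))
    (hBc : ContinuousOn (fun p : ℝ × ℝ => B p.1 p.2) (Ioo a b ×ˢ Ioo c d))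
    (hKc : ContinuousOn (fun p : ℝ × ℝ => K p.1 p.2) (Ioo a b ×ˢ Ioo c d))
    (hA : ∀ t ∈ Ioo a b, ∀ τ ∈ Ioo c d, HasDerivAt (fun s => A s τ) (K t τ) t)
    (hB : ∀ t ∈ Ioo a b, ∀ τ ∈ Ioo c d, HasDerivAt (fun s => B t s) (K t τ) τ) :
    ∃ Z : ℝ → ℝ → ℝ, Z t₀ τ₀ = 0 ∧ ∀ t ∈ Ioo a b, ∀ τ ∈ Ioo c d,
      HasDerivAt (fun s => Z t s) (A t τ) τ ∧ HasDerivAt (fun s => Z s τ) (B t τ) t := by
  have hIt : ∀ {t t' : ℝ}, t ∈ Ioo a b → t' ∈ Ioo a b → uIcc t t' ⊆ Ioo a b :=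
    fun h h' => (ordConnected_Ioo).uIcc_subset h h'
  have hIτ : ∀ {t t' : ℝ}, t ∈ Ioo c d → t' ∈ Ioo c d → uIcc t t' ⊆ Ioo c d :=
    fun h h' => (ordConnected_Ioo).uIcc_subset h h'
  -- continuity of slices
  have sl1 : ∀ {F : ℝ → ℝ → ℝ}, ContinuousOn (fun p : ℝ × ℝ => F p.1 p.2) (Ioo a b ×ˢ Ioo c d) →
      ∀ t ∈ Ioo a b, ContinuousOn (fun s => F t s) (Ioo c d) := by
    intro F hF t ht
    exact hF.comp (f := fun s : ℝ => (t, s)) (by fun_prop) (fun s hs => ⟨ht, hs⟩)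
  have sl2 : ∀ {F : ℝ → ℝ → ℝ}, ContinuousOn (fun p : ℝ × ℝ => F p.1 p.2) (Ioo a b ×ˢ Ioo c d) →
      ∀ τ ∈ Ioo c d, ContinuousOn (fun s => F s τ) (Ioo a b) := by
    intro F hF τ hτ
    exact hF.comp (f := fun s : ℝ => (s, τ)) (by fun_prop) (fun s hs => ⟨hs, hτ⟩)
  let Z : ℝ → ℝ → ℝ := fun t τ => (∫ y in τ₀..τ, A t y) + ∫ s in t₀..t, B s τ₀
  have key : ∀ t ∈ Ioo a b, ∀ τ ∈ Ioo c d,
      Z t τ = (∫ y in τ₀..τ, A t₀ y) + ∫ s in t₀..t, B s τ := by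
    intro t ht τ hτ
    have h1 : ∫ y in τ₀..τ, (A t y - A t₀ y) = ∫ y in τ₀..τ, ∫ s in t₀..t, K s y := by
      refine intervalIntegral.integral_congr fun y hy => ?_
      have hy' := hIτ hτ₀ hτ hy
      symm
      refine intervalIntegral.integral_eq_sub_of_hasDerivAt
        (fun s hs => hA s (hIt ht₀ ht hs) y hy') ?_
      exact ((sl2 hKc y hy').mono (hIt ht₀ ht)).intervalIntegrable
    have h2 : ∫ s in t₀..t, (B s τ - B s τ₀) = ∫ s in t₀..t, ∫ y in τ₀..τ, K s y := by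
      refine intervalIntegral.integral_congr fun s hs => ?_
      have hs' := hIt ht₀ ht hs
      symm
      refine intervalIntegral.integral_eq_sub_of_hasDerivAt
        (fun y hy => hB s hs' y (hIτ hτ₀ hτ hy)) ?_
      exact ((sl1 hKc s hs').mono (hIτ hτ₀ hτ)).intervalIntegrable
    have h3 : ∫ y in τ₀..τ, ∫ s in t₀..t, K s y = ∫ s in t₀..t, ∫ y in τ₀..τ, K s y := by
      refine (intervalIntegral_intervalIntegral_swap ?_).symm
      have hc : ContinuousOn (Function.uncurry K) (uIcc t₀ t ×ˢ uIcc τ₀ τ) := by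
        refine ContinuousOn.mono ?_ (prod_mono (hIt ht₀ ht) (hIτ hτ₀ hτ))
        exact hKc
      exact (hc.integrableOn_compact (isCompact_uIcc.prod isCompact_uIcc)).mono_set
        (prod_mono uIoc_subset_uIcc uIoc_subset_uIcc)
    have i1 : IntervalIntegrable (fun y => A t y) volume τ₀ τ :=
      ((sl1 hAc t ht).mono (hIτ hτ₀ hτ)).intervalIntegrable
    have i2 : IntervalIntegrable (fun y => A t₀ y) volume τ₀ τ :=
      ((sl1 hAc t₀ ht₀).mono (hIτ hτ₀ hτ)).intervalIntegrable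
    have i3 : IntervalIntegrable (fun s => B s τ) volume t₀ t :=
      ((sl2 hBc τ hτ).mono (hIt ht₀ ht)).intervalIntegrable
    have i4 : IntervalIntegrable (fun s => B s τ₀) volume t₀ t :=
      ((sl2 hBc τ₀ hτ₀).mono (hIt ht₀ ht)).intervalIntegrable
    rw [intervalIntegral.integral_sub i1 i2] at h1
    rw [intervalIntegral.integral_sub i3 i4] at h2
    simp only [Z]
    linarith
  refine ⟨Z, by simp [Z], fun t ht τ hτ => ⟨?_, ?_⟩⟩
  · have h := (sl1 hAc t ht)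
    have hI : IntervalIntegrable (fun y => A t y) volume τ₀ τ :=
      (h.mono (hIτ hτ₀ hτ)).intervalIntegrable
    have hm : StronglyMeasurableAtFilter (fun y => A t y) (𝓝 τ) :=
      h.stronglyMeasurableAtFilter isOpen_Ioo τ hτ
    have := intervalIntegral.integral_hasDerivAt_right hI hm (h.continuousAt (isOpen_Ioo.mem_nhds hτ))
    exact this.add_const _
  · have h := (sl2 hBc τ hτ)
    have hI : IntervalIntegrable (fun y => B y τ) volume t₀ t :=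
      (h.mono (hIt ht₀ ht)).intervalIntegrable
    have hm : StronglyMeasurableAtFilter (fun y => B y τ) (𝓝 t) :=
      h.stronglyMeasurableAtFilter isOpen_Ioo t ht
    have h5 := intervalIntegral.integral_hasDerivAt_right hI hm (h.continuousAt (isOpen_Ioo.mem_nhds ht))
    have h6 : HasDerivAt (fun s => (∫ y in τ₀..τ, A t₀ y) + ∫ s' in t₀..s, B s' τ) (B t τ) t :=
      h5.const_add _
    refine h6.congr_of_eventuallyEq ?_
    filter_upwards [isOpen_Ioo.mem_nhds ht] with s hs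
    exact key s hs τ hτ

/-- Implicit functions with the formula for the derivative on a whole neighbourhood. -/
theorem exists_implicit {E : Type*} [NormedAddCommGroup E] [NormedSpace ℝ E] [CompleteSpace E]
    {O : Set (E × ℝ)} (hO : IsOpen O) {u : E × ℝ} (hu : u ∈ O)
    {f : E → ℝ → ℝ} {f₁ : E → ℝ → (E →L[ℝ] ℝ)} {f₂ : E → ℝ → ℝ}
    (h₁ : ∀ v ∈ O, HasFDerivAt (fun x => f x v.2) (f₁ v.1 v.2) v.1)
    (h₂ : ∀ v ∈ O, HasDerivAt (fun y => f v.1 y) (f₂ v.1 v.2) v.2)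
    (c₁ : ContinuousOn (fun v : E × ℝ => f₁ v.1 v.2) O)
    (c₂ : ContinuousOn (fun v : E × ℝ => f₂ v.1 v.2) O)
    (hne : ∀ v ∈ O, f₂ v.1 v.2 ≠ 0) :
    ∃ (φ : E → ℝ), φ u.1 = u.2 ∧ ∀ᶠ x in 𝓝 u.1, (x, φ x) ∈ O ∧ f x (φ x) = f u.1 u.2 ∧
      HasFDerivAt φ (-(f₂ x (φ x))⁻¹ • f₁ x (φ x)) x := by
  -- local statement at every point of `O`
  have loc : ∀ v ∈ O, ∃ ψ : E → ℝ, (∀ᶠ w in 𝓝 v, f w.1 w.2 = f v.1 v.2 ↔ ψ w.1 = w.2) ∧
      HasStrictFDerivAt ψ (-(f₂ v.1 v.2)⁻¹ • f₁ v.1 v.2) v.1 := by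
    intro v hv
    let g₂ : E → ℝ → ℝ →L[ℝ] ℝ := fun x y => f₂ x y • ContinuousLinearMap.id ℝ ℝ
    have df₁ : ∀ᶠ w in 𝓝 v, HasFDerivAt (f · w.2) (f₁ w.1 w.2) w.1 := by
      filter_upwards [hO.mem_nhds hv] with w hw using h₁ w hw
    have df₂ : ∀ᶠ w in 𝓝 v, HasFDerivAt (f w.1 ·) (g₂ w.1 w.2) w.2 := by
      filter_upwards [hO.mem_nhds hv] with w hw
      have := (h₂ w hw).hasFDerivAt
      refine this.congr_fderiv ?_
      ext; simp [g₂]
    have cf₁ : ContinuousAt ↿f₁ v := c₁.continuousAt (hO.mem_nhds hv)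
    have cf₂ : ContinuousAt ↿g₂ v := by
      have := (c₂.continuousAt (hO.mem_nhds hv)).smul
        (continuousAt_const (y := ContinuousLinearMap.id ℝ ℝ))
      exact this
    have hne' := hne v hv
    have hl : ∀ y : ℝ, g₂ v.1 v.2 y = f₂ v.1 v.2 * y := fun y => by simp [g₂]
    have inv : (g₂ v.1 v.2).IsInvertible := by
      refine ContinuousLinearMap.IsInvertible.of_inverse
        (g := (f₂ v.1 v.2)⁻¹ • ContinuousLinearMap.id ℝ ℝ) ?_ ?_
      · ext; simp [g₂, hne']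
      · ext; simp [g₂, hne']
    have hinv : ∀ y : ℝ, (g₂ v.1 v.2).inverse y = (f₂ v.1 v.2)⁻¹ * y := by
      intro y
      have h := inv.self_apply_inverse y
      rw [hl] at h
      rw [eq_inv_mul_iff_mul_eq₀ hne', h]
    refine ⟨implicitFunctionOfBivariate df₁ df₂ cf₁ cf₂ inv,
      eventually_apply_eq_iff_implicitFunctionOfBivariate df₁ df₂ cf₁ cf₂ inv, ?_⟩
    have := hasStrictFDerivAt_implicitFunctionOfBivariate df₁ df₂ cf₁ cf₂ inv
    have heq : -(g₂ v.1 v.2).inverse ∘L f₁ v.1 v.2 = -(f₂ v.1 v.2)⁻¹ • f₁ v.1 v.2 := by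
      ext y
      simp [hinv]
    rw [heq] at this
    exact this
  obtain ⟨φ, hφ, hφd⟩ := loc u hu
  have hφu : φ u.1 = u.2 := hφ.self_of_nhds.1 rfl
  -- the graph map is continuous near `u.1`
  obtain ⟨K, s, hs, hLip⟩ := hφd.exists_lipschitzOnWith
  have hgc : ∀ᶠ x in 𝓝 u.1, ContinuousAt φ x := by
    filter_upwards [eventually_mem_nhds_iff.2 hs] with x hx
    exact hLip.continuousOn.continuousAt hx
  have htend : ∀ x, ContinuousAt φ x → Tendsto (fun x => (x, φ x)) (𝓝 x) (𝓝 (x, φ x)) :=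
    fun x hx => (continuousAt_id.prodMk hx)
  have hgr : Tendsto (fun x => (x, φ x)) (𝓝 u.1) (𝓝 u) := by
    have := htend u.1 hgc.self_of_nhds
    rwa [hφu] at this
  have hOx : ∀ᶠ x in 𝓝 u.1, (x, φ x) ∈ O := hgr.eventually (hO.mem_nhds hu)
  have hφ' : ∀ᶠ x in 𝓝 u.1, ∀ᶠ w in 𝓝 (x, φ x), f w.1 w.2 = f u.1 u.2 ↔ φ w.1 = w.2 :=
    hgr.eventually (eventually_eventually_nhds.2 hφ)
  refine ⟨φ, hφu, ?_⟩
  filter_upwards [hgc, hOx, hφ'] with x hxc hxO hxφ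
  have hfx : f x (φ x) = f u.1 u.2 := hxφ.self_of_nhds.2 rfl
  refine ⟨hxO, hfx, ?_⟩
  obtain ⟨ψ, hψ, hψd⟩ := loc (x, φ x) hxO
  refine hψd.hasFDerivAt.congr_of_eventuallyEq ?_
  filter_upwards [(htend x hxc).eventually hψ, (htend x hxc).eventually hxφ] with y hy1 hy2
  have h3 : f y (φ y) = f u.1 u.2 := hy2.2 rfl
  have h4 : f y (φ y) = f x (φ x) := h3.trans hfx.symm
  exact (hy1.1 h4).symm

end Pool.Agent.TH306.GF
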