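import Mathlib
import Pool.Agent.TH306.GF1
import Pool.Agent.TH306.GF2

set_option autoImplicit false

open Set Filter Topology MeasureTheory
open scoped ContDiff

namespace Pool.Agent.TH306.GF

namespace Prof

variable (P : Prof)

/-- derivatives of the profile functions -/
noncomputable def x' (τ : ℝ) : ℝ := dx (P.x τ) (P.G τ) (P.C τ)
noncomputable def G' (τ : ℝ) : ℝ := dG (P.x τ) (P.G τ) (P.C τ)
noncomputable def C' (τ : ℝ) : ℝ := dC (P.x τ) (P.G τ) (P.C τ)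

noncomputable def g (t τ : ℝ) : ℝ := P.G τ - (t + 1) / (2 * P.x τ)
noncomputable def m (t τ : ℝ) : ℝ := P.C τ - P.g t τ
noncomputable def N (t τ : ℝ) : ℝ := t * P.g t τ - P.m t τ
noncomputable def M (t τ : ℝ) : ℝ := t - P.m t τ ^ 2 - t * P.g t τ ^ 2

noncomputable def gt (τ : ℝ) : ℝ := -(1 / (2 * P.x τ))
noncomputable def Mt (t τ : ℝ) : ℝ :=
  1 + 2 * P.m t τ * P.gt τ - P.g t τ ^ 2 - 2 * t * P.g t τ * P.gt τ
noncomputable def gτ (t τ : ℝ) : ℝ := P.G' τ + (t + 1) * P.x' τ / (2 * P.x τ ^ 2)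
noncomputable def mτ (t τ : ℝ) : ℝ := P.C' τ - P.gτ t τ
noncomputable def Nτ (t τ : ℝ) : ℝ := t * P.gτ t τ - P.mτ t τ
noncomputable def Mτ (t τ : ℝ) : ℝ :=
  -(2 * P.m t τ * P.mτ t τ) - 2 * t * P.g t τ * P.gτ t τ

/-- the key identity -/
theorem key (t τ : ℝ) (hx : P.x τ ≠ 0) :
    4 * t * P.Mt t τ * P.x' τ - 3 * P.N t τ * P.Mτ t τ + 6 * P.M t τ * P.Nτ t τ = 0 := by
  simp only [Mt, x', N, Mτ, M, Nτ, mτ, gτ, gt, m, g, G', C', dx, dG, dC, Dp, Rp]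
  generalize P.x τ = x at *
  generalize P.G τ = G
  generalize P.C τ = C
  field_simp
  ring

/-- the set of good parameters -/
def Good (t τ : ℝ) : Prop :=
  τ ∈ Ioo (-P.δ) P.δ ∧ 0 < P.x τ ∧ 0 < P.x' τ ∧ 0 < P.M t τ ∧ 0 < t

theorem hasDerivAt_g_t (t τ : ℝ) : HasDerivAt (fun s => P.g s τ) (P.gt τ) t := by
  unfold g gt
  have : HasDerivAt (fun s : ℝ => P.G τ - (s + 1) / (2 * P.x τ)) (0 - 1 / (2 * P.x τ)) t :=
    (hasDerivAt_const _ _).sub (((hasDerivAt_id t).add_const 1).div_const _)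
  simpa using this

theorem hasDerivAt_m_t (t τ : ℝ) : HasDerivAt (fun s => P.m s τ) (-P.gt τ) t := by
  unfold m
  exact (P.hasDerivAt_g_t t τ).const_sub (P.C τ)

theorem hasDerivAt_M_t (t τ : ℝ) : HasDerivAt (fun s => P.M s τ) (P.Mt t τ) t := by
  unfold M
  have h1 := P.hasDerivAt_g_t t τ
  have h2 := P.hasDerivAt_m_t t τ
  have := ((hasDerivAt_id t).sub (h2.pow 2)).sub ((hasDerivAt_id t).mul (h1.pow 2))
  refine this.congr_deriv ?_
  unfold Mt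
  simp
  ring

theorem hasDerivAt_g_τ (t : ℝ) {τ : ℝ} (hτ : τ ∈ Ioo (-P.δ) P.δ) (hx : P.x τ ≠ 0) :
    HasDerivAt (fun s => P.g t s) (P.gτ t τ) τ := by
  unfold g
  have h1 := P.hG τ hτ
  have h2 := P.hx τ hτ
  have := h1.sub ((hasDerivAt_const τ (t + 1)).div (h2.const_mul 2) (by simpa using hx))
  refine this.congr_deriv ?_
  unfold gτ x' G'
  simp
  field_simp
  ring

theorem hasDerivAt_m_τ (t : ℝ) {τ : ℝ} (hτ : τ ∈ Ioo (-P.δ) P.δ) (hx : P.x τ ≠ 0) :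
    HasDerivAt (fun s => P.m t s) (P.mτ t τ) τ := by
  unfold m mτ
  exact (P.hC τ hτ).sub (P.hasDerivAt_g_τ t hτ hx)

theorem hasDerivAt_N_τ (t : ℝ) {τ : ℝ} (hτ : τ ∈ Ioo (-P.δ) P.δ) (hx : P.x τ ≠ 0) :
    HasDerivAt (fun s => P.N t s) (P.Nτ t τ) τ := by
  unfold N Nτ
  exact ((P.hasDerivAt_g_τ t hτ hx).const_mul t).sub (P.hasDerivAt_m_τ t hτ hx)

theorem hasDerivAt_M_τ (t : ℝ) {τ : ℝ} (hτ : τ ∈ Ioo (-P.δ) P.δ) (hx : P.x τ ≠ 0) :
    HasDerivAt (fun s => P.M t s) (P.Mτ t τ) τ := by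
  unfold M
  have h1 := P.hasDerivAt_g_τ t hτ hx
  have h2 := P.hasDerivAt_m_τ t hτ hx
  have := ((hasDerivAt_const τ t).sub (h2.pow 2)).sub ((h1.pow 2).const_mul t)
  refine this.congr_deriv ?_
  unfold Mτ
  simp
  ring

/-- the region where everything is smooth -/
def Reg : Set (ℝ × ℝ) := {p | P.Good p.1 p.2}

theorem smooth_x : ContDiffOn ℝ ∞ (fun p : ℝ × ℝ => P.x p.2) P.Reg :=
  P.sx.comp contDiff_snd.contDiffOn (fun _ hp => hp.1)
theorem smooth_G : ContDiffOn ℝ ∞ (fun p : ℝ × ℝ => P.G p.2) P.Reg :=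
  P.sG.comp contDiff_snd.contDiffOn (fun _ hp => hp.1)
theorem smooth_C : ContDiffOn ℝ ∞ (fun p : ℝ × ℝ => P.C p.2) P.Reg :=
  P.sC.comp contDiff_snd.contDiffOn (fun _ hp => hp.1)

theorem smooth_x' : ContDiffOn ℝ ∞ (fun p : ℝ × ℝ => P.x' p.2) P.Reg := by
  have h1 := P.smooth_x
  have h2 := P.smooth_G
  have h3 := P.smooth_C
  unfold x' dx Dp
  fun_prop

theorem smooth_G' : ContDiffOn ℝ ∞ (fun p : ℝ × ℝ => P.G' p.2) P.Reg := by
  have h1 := P.smooth_x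
  have h2 := P.smooth_G
  have h3 := P.smooth_C
  unfold G' dG Dp Rp
  fun_prop

theorem smooth_C' : ContDiffOn ℝ ∞ (fun p : ℝ × ℝ => P.C' p.2) P.Reg := by
  have h1 := P.smooth_x
  have h2 := P.smooth_G
  have h3 := P.smooth_C
  unfold C' dC Rp
  fun_prop

theorem smooth_t : ContDiffOn ℝ ∞ (fun p : ℝ × ℝ => p.1) P.Reg := contDiff_fst.contDiffOn

theorem smooth_g : ContDiffOn ℝ ∞ (fun p : ℝ × ℝ => P.g p.1 p.2) P.Reg := by
  unfold g
  refine P.smooth_G.sub (ContDiffOn.div (P.smooth_t.add contDiffOn_const)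
    (contDiffOn_const.mul P.smooth_x) ?_)
  intro p hp
  have := hp.2.1
  positivity

theorem smooth_m : ContDiffOn ℝ ∞ (fun p : ℝ × ℝ => P.m p.1 p.2) P.Reg := by
  unfold m
  exact P.smooth_C.sub P.smooth_g

theorem smooth_N : ContDiffOn ℝ ∞ (fun p : ℝ × ℝ => P.N p.1 p.2) P.Reg := by
  unfold N
  exact (P.smooth_t.mul P.smooth_g).sub P.smooth_m

theorem smooth_M : ContDiffOn ℝ ∞ (fun p : ℝ × ℝ => P.M p.1 p.2) P.Reg := by
  unfold M
  exact (P.smooth_t.sub (P.smooth_m.pow 2)).sub (P.smooth_t.mul (P.smooth_g.pow 2))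

theorem smooth_Q : ContDiffOn ℝ ∞ (fun p : ℝ × ℝ => √(P.M p.1 p.2)) P.Reg :=
  P.smooth_M.sqrt (fun p hp => (hp.2.2.2.1).ne')

theorem smooth_gt : ContDiffOn ℝ ∞ (fun p : ℝ × ℝ => P.gt p.2) P.Reg := by
  unfold gt
  refine (ContDiffOn.div contDiffOn_const (contDiffOn_const.mul P.smooth_x) ?_).neg
  intro p hp
  have := hp.2.1
  positivity

theorem smooth_Mt : ContDiffOn ℝ ∞ (fun p : ℝ × ℝ => P.Mt p.1 p.2) P.Reg := by
  unfold Mt
  exact ((contDiffOn_const.add ((contDiffOn_const.mul P.smooth_m).mul P.smooth_gt)).sub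
    (P.smooth_g.pow 2)).sub (((contDiffOn_const.mul P.smooth_t).mul P.smooth_g).mul P.smooth_gt)

theorem good_base : P.Good 4 0 := by
  refine ⟨⟨by linarith [P.hδ], P.hδ⟩, ?_, ?_, ?_, by norm_num⟩
  · rw [P.x0]; norm_num
  · unfold x' dx Dp; rw [P.x0, P.G0, P.C0]; norm_num
  · unfold M m g; rw [P.x0, P.G0, P.C0]; norm_num

/-- openness of the region -/
theorem isOpen_reg : IsOpen P.Reg := by
  have hJ : IsOpen ({p : ℝ × ℝ | p.2 ∈ Ioo (-P.δ) P.δ}) := isOpen_Ioo.preimage continuous_snd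
  have cx : ContinuousOn (fun p : ℝ × ℝ => P.x p.2) {p : ℝ × ℝ | p.2 ∈ Ioo (-P.δ) P.δ} :=
    P.sx.continuousOn.comp continuous_snd.continuousOn (fun _ hp => hp)
  have cG : ContinuousOn (fun p : ℝ × ℝ => P.G p.2) {p : ℝ × ℝ | p.2 ∈ Ioo (-P.δ) P.δ} :=
    P.sG.continuousOn.comp continuous_snd.continuousOn (fun _ hp => hp)
  have cC : ContinuousOn (fun p : ℝ × ℝ => P.C p.2) {p : ℝ × ℝ | p.2 ∈ Ioo (-P.δ) P.δ} :=
    P.sC.continuousOn.comp continuous_snd.continuousOn (fun _ hp => hp)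
  -- first the part without `M`
  have h1 : IsOpen ({p : ℝ × ℝ | p.2 ∈ Ioo (-P.δ) P.δ} ∩ (fun p : ℝ × ℝ => P.x p.2) ⁻¹' Ioi 0) :=
    cx.isOpen_inter_preimage hJ isOpen_Ioi
  set S := {p : ℝ × ℝ | p.2 ∈ Ioo (-P.δ) P.δ} ∩ (fun p : ℝ × ℝ => P.x p.2) ⁻¹' Ioi 0 with hS
  have cx' : ContinuousOn (fun p : ℝ × ℝ => P.x' p.2) S := by
    have a1 := cx.mono (inter_subset_left : S ⊆ _)
    have a2 := cG.mono (inter_subset_left : S ⊆ _)
    have a3 := cC.mono (inter_subset_left : S ⊆ _)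
    unfold x' dx Dp
    fun_prop
  have cg : ContinuousOn (fun p : ℝ × ℝ => P.g p.1 p.2) S := by
    unfold g
    refine (cG.mono inter_subset_left).sub (ContinuousOn.div (by fun_prop)
      (continuousOn_const.mul (cx.mono inter_subset_left)) ?_)
    intro p hp
    have : 0 < P.x p.2 := hp.2
    positivity
  have cM : ContinuousOn (fun p : ℝ × ℝ => P.M p.1 p.2) S := by
    have a3 := cC.mono (inter_subset_left : S ⊆ _)
    unfold M m
    fun_prop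
  have h2 : IsOpen (S ∩ (fun p : ℝ × ℝ => (P.x' p.2, P.M p.1 p.2, p.1)) ⁻¹'
      (Ioi 0 ×ˢ (Ioi 0 ×ˢ Ioi 0))) :=
    (cx'.prodMk (cM.prodMk continuousOn_fst)).isOpen_inter_preimage h1
      (isOpen_Ioi.prod (isOpen_Ioi.prod isOpen_Ioi))
  convert h2 using 1
  ext p
  simp only [Reg, Good, hS, mem_ofPred_eq, mem_inter_iff, mem_preimage, mem_Ioi, mem_prod]
  tauto

/-- coefficients of the one-form -/
noncomputable def A (t τ : ℝ) : ℝ := -(2 / 3) * P.x' τ / √(P.M t τ)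
noncomputable def B (t τ : ℝ) : ℝ := -(P.N t τ) / (2 * t * √(P.M t τ))
noncomputable def K (t τ : ℝ) : ℝ := P.x' τ * P.Mt t τ / (3 * √(P.M t τ) ^ 3)

theorem hasDerivAt_A {t τ : ℝ} (h : P.Good t τ) : HasDerivAt (fun s => P.A s τ) (P.K t τ) t := by
  unfold A K
  have hM := h.2.2.2.1
  have h1 := (P.hasDerivAt_M_t t τ).sqrt hM.ne'
  have hs : √(P.M t τ) ≠ 0 := (Real.sqrt_pos.2 hM).ne'
  have := (hasDerivAt_const t (-(2 / 3) * P.x' τ)).div h1 hs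
  refine this.congr_deriv ?_
  field_simp
  ring

theorem hasDerivAt_B {t τ : ℝ} (h : P.Good t τ) : HasDerivAt (fun s => P.B t s) (P.K t τ) τ := by
  unfold B K
  have hM := h.2.2.2.1
  have hx := h.2.1.ne'
  have ht := h.2.2.2.2.ne'
  have h1 := (P.hasDerivAt_M_τ t h.1 hx).sqrt hM.ne'
  have hs : √(P.M t τ) ≠ 0 := (Real.sqrt_pos.2 hM).ne'
  have hsq : √(P.M t τ) ^ 2 = P.M t τ := Real.sq_sqrt hM.le
  have := (P.hasDerivAt_N_τ t h.1 hx).neg.div (h1.const_mul (2 * t)) (by simp [ht, hs])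
  refine this.congr_deriv ?_
  have hk := P.key t τ hx
  rw [← hsq] at hk
  simp only [Pi.neg_apply]
  generalize √(P.M t τ) = q at *
  generalize P.Nτ t τ = n' at *
  generalize P.N t τ = n at *
  generalize P.Mτ t τ = m' at *
  generalize P.Mt t τ = m'' at *
  generalize P.x' τ = y at *
  field_simp
  linear_combination (-1 : ℝ) * hk

theorem smooth_A : ContDiffOn ℝ ∞ (fun p : ℝ × ℝ => P.A p.1 p.2) P.Reg := by
  unfold A
  refine (contDiffOn_const.mul P.smooth_x').div P.smooth_Q ?_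
  intro p hp
  exact (Real.sqrt_pos.2 hp.2.2.2.1).ne'

theorem smooth_B : ContDiffOn ℝ ∞ (fun p : ℝ × ℝ => P.B p.1 p.2) P.Reg := by
  unfold B
  refine P.smooth_N.neg.div ((contDiffOn_const.mul P.smooth_t).mul P.smooth_Q) ?_
  intro p hp
  have h1 := (Real.sqrt_pos.2 hp.2.2.2.1).ne'
  have h2 := hp.2.2.2.2.ne'
  simp [h1, h2]

theorem smooth_K : ContDiffOn ℝ ∞ (fun p : ℝ × ℝ => P.K p.1 p.2) P.Reg := by
  unfold K
  refine (P.smooth_x'.mul P.smooth_Mt).div (contDiffOn_const.mul (P.smooth_Q.pow 3)) ?_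
  intro p hp
  have h1 := (Real.sqrt_pos.2 hp.2.2.2.1).ne'
  simp [h1]

/-- a rectangle around the base point in the good region, with the potential -/
theorem exists_Z : ∃ (r : ℝ) (Z : ℝ → ℝ → ℝ), 0 < r ∧ Z 4 0 = 0 ∧
    (∀ t ∈ Ioo (4 - r) (4 + r), ∀ τ ∈ Ioo (-r) r, P.Good t τ ∧
      HasDerivAt (fun s => Z t s) (P.A t τ) τ ∧ HasDerivAt (fun s => Z s τ) (P.B t τ) t) := by
  obtain ⟨r, hr, hb⟩ := Metric.isOpen_iff.1 P.isOpen_reg (4, 0) P.good_base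
  have hg : ∀ t ∈ Ioo (4 - r) (4 + r), ∀ τ ∈ Ioo (-r) r, P.Good t τ := by
    intro t ht τ hτ
    have : ((t, τ) : ℝ × ℝ) ∈ Metric.ball ((4, 0) : ℝ × ℝ) r := by
      rw [Metric.mem_ball, Prod.dist_eq, max_lt_iff, Real.dist_eq, Real.dist_eq]
      exact ⟨abs_lt.2 ⟨by linarith [ht.1], by linarith [ht.2]⟩,
        abs_lt.2 ⟨by linarith [hτ.1], by linarith [hτ.2]⟩⟩
    exact hb this
  have hsub : Ioo (4 - r) (4 + r) ×ˢ Ioo (-r) r ⊆ P.Reg := fun p hp => hg _ hp.1 _ hp.2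
  obtain ⟨Z, hZ0, hZ⟩ := exists_potential (t₀ := 4) (τ₀ := 0) (a := 4 - r) (b := 4 + r) (c := -r)
    (d := r) (A := P.A) (B := P.B) (K := P.K) ⟨by linarith, by linarith⟩ ⟨by linarith, by linarith⟩
    (P.smooth_A.continuousOn.mono hsub) (P.smooth_B.continuousOn.mono hsub)
    (P.smooth_K.continuousOn.mono hsub)
    (fun t ht τ hτ => P.hasDerivAt_A (hg t ht τ hτ))
    (fun t ht τ hτ => P.hasDerivAt_B (hg t ht τ hτ))
  exact ⟨r, Z, hr, hZ0, fun t ht τ hτ => ⟨hg t ht τ hτ, hZ t ht τ hτ⟩⟩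

end Prof

end Pool.Agent.TH306.GF
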