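import Mathlib
import Pool.Agent.TH306.GF3

set_option autoImplicit false

open Set Filter Topology MeasureTheory
open scoped ContDiff

namespace Pool.Agent.TH306.GF

abbrev E3 := EuclideanSpace ℝ (Fin 3)

/-- coordinate functionals -/
noncomputable def pr (i : Fin 3) : E3 →L[ℝ] ℝ := EuclideanSpace.proj i

@[simp] lemma pr_apply (i : Fin 3) (X : E3) : pr i X = X i := rfl

def T (X : E3) : ℝ := X 0 ^ 2 + X 1 ^ 2
noncomputable def ζ (X : E3) : ℝ := X 2 - Real.arctan (X 1 / X 0)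

noncomputable def dT (X : E3) : E3 →L[ℝ] ℝ := (2 * X 0) • pr 0 + (2 * X 1) • pr 1
noncomputable def dζ (X : E3) : E3 →L[ℝ] ℝ := pr 2 - ((X 0 / T X) • pr 1 - (X 1 / T X) • pr 0)

lemma hasFDerivAt_quot {E : Type*} [NormedAddCommGroup E] [NormedSpace ℝ E] {f g : E → ℝ}
    {f' g' : E →L[ℝ] ℝ} {X : E} (hf : HasFDerivAt f f' X) (hg : HasFDerivAt g g' X)
    (h : g X ≠ 0) :
    HasFDerivAt (fun Y => f Y / g Y) ((g X)⁻¹ • f' - (f X / g X ^ 2) • g') X := by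
  have h1 : HasFDerivAt (fun Y => (g Y)⁻¹) (-(g X ^ 2)⁻¹ • g') X :=
    (hasDerivAt_inv h).comp_hasFDerivAt X hg
  have h2 : HasFDerivAt (fun Y => f Y / g Y) _ X := hf.fun_mul h1
  refine h2.congr_fderiv ?_
  ext v
  simp
  field_simp
  ring

lemma hasFDerivAt_coord (i : Fin 3) (X : E3) : HasFDerivAt (fun Y : E3 => Y i) (pr i) X :=
  (pr i).hasFDerivAt

lemma hasFDerivAt_T (X : E3) : HasFDerivAt T (dT X) X := by
  have h1 : HasFDerivAt T _ X :=
    ((hasFDerivAt_coord 0 X).pow 2).fun_add ((hasFDerivAt_coord 1 X).pow 2)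
  refine h1.congr_fderiv ?_
  ext v
  simp [dT]

lemma T_pos {X : E3} (h : 0 < X 0) : 0 < T X := by unfold T; positivity

lemma hasFDerivAt_ζ {X : E3} (h : 0 < X 0) : HasFDerivAt ζ (dζ X) X := by
  unfold ζ
  have h1 : HasFDerivAt (fun Y : E3 => Y 1 / Y 0)
      ((X 0 ^ 2)⁻¹ • ((X 0) • pr 1 - (X 1) • pr 0)) X := by
    have := hasFDerivAt_quot (hasFDerivAt_coord 1 X) (hasFDerivAt_coord 0 X) h.ne'
    refine this.congr_fderiv ?_
    ext v
    simp
    field_simp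
  have h3 : HasFDerivAt (fun X : E3 => X 2 - Real.arctan (X 1 / X 0)) _ X :=
    (hasFDerivAt_coord 2 X).fun_sub h1.arctan
  refine h3.congr_fderiv ?_
  ext v
  have hT := (T_pos h).ne'
  have h2 : 1 + (X 1 / X 0) ^ 2 = T X / X 0 ^ 2 := by unfold T; field_simp
  simp [dζ, h2]
  field_simp

/-- The good domain in `E3 × ℝ`. -/
def Om (P : Prof) : Set (E3 × ℝ) := {v | 0 < v.1 0 ∧ P.Good (T v.1) v.2}

lemma continuous_T : Continuous T := by unfold T; fun_prop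

lemma isOpen_Om (P : Prof) : IsOpen (Om P) := by
  have h1 : IsOpen {v : E3 × ℝ | 0 < v.1 0} := isOpen_lt continuous_const (by fun_prop)
  have h2 : IsOpen ((fun v : E3 × ℝ => (T v.1, v.2)) ⁻¹' P.Reg) :=
    P.isOpen_reg.preimage ((continuous_T.comp continuous_fst).prodMk continuous_snd)
  exact h1.inter h2

/-- base point -/
noncomputable def X₀ : E3 := !₂[2, 0, 0]

/-- coefficients of the differential of `φ` -/
noncomputable def a0 (P : Prof) (X : E3) (τ : ℝ) : ℝ :=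
  -3 * (P.N (T X) τ * X 0 + √(P.M (T X) τ) * X 1) / (2 * P.x' τ * T X)
noncomputable def a1 (P : Prof) (X : E3) (τ : ℝ) : ℝ :=
  -3 * (P.N (T X) τ * X 1 - √(P.M (T X) τ) * X 0) / (2 * P.x' τ * T X)
noncomputable def a2 (P : Prof) (X : E3) (τ : ℝ) : ℝ :=
  -3 * √(P.M (T X) τ) / (2 * P.x' τ)
noncomputable def dφ (P : Prof) (X : E3) (τ : ℝ) : E3 →L[ℝ] ℝ :=
  a0 P X τ • pr 0 + a1 P X τ • pr 1 + a2 P X τ • pr 2

theorem exists_φ0 (P : Prof) : ∃ φ : E3 → ℝ, φ X₀ = 0 ∧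
    ∀ᶠ X in 𝓝 X₀, (X, φ X) ∈ Om P ∧ HasFDerivAt φ (dφ P X (φ X)) X := by
  obtain ⟨r, Z, hr, hZ0, hZ⟩ := P.exists_Z
  let O : Set (E3 × ℝ) := {v | 0 < v.1 0 ∧ T v.1 ∈ Ioo (4 - r) (4 + r) ∧ v.2 ∈ Ioo (-r) r}
  have hO : IsOpen O := by
    have h1 : IsOpen {v : E3 × ℝ | 0 < v.1 0} := isOpen_lt continuous_const (by fun_prop)
    have h2 : IsOpen ((fun v : E3 × ℝ => T v.1) ⁻¹' Ioo (4 - r) (4 + r)) :=
      isOpen_Ioo.preimage (continuous_T.comp continuous_fst)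
    have h3 : IsOpen ((fun v : E3 × ℝ => v.2) ⁻¹' Ioo (-r) r) := isOpen_Ioo.preimage continuous_snd
    exact h1.inter (h2.inter h3)
  have hT0 : T X₀ = 4 := by simp [T, X₀]; norm_num
  have hu : ((X₀, 0) : E3 × ℝ) ∈ O := by
    have u1 : 0 < X₀ 0 := by simp [X₀]
    have u2 : T X₀ ∈ Ioo (4 - r) (4 + r) := by rw [hT0]; constructor <;> linarith
    have u3 : (0:ℝ) ∈ Ioo (-r) r := by constructor <;> linarith
    exact ⟨u1, u2, u3⟩
  have hgood : ∀ v ∈ O, P.Good (T v.1) v.2 := fun v hv => (hZ _ hv.2.1 _ hv.2.2).1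
  have hmap : MapsTo (fun v : E3 × ℝ => (T v.1, v.2)) O P.Reg := fun v hv => hgood v hv
  have cT : ContinuousOn (fun v : E3 × ℝ => (T v.1, v.2)) O :=
    ((continuous_T.comp continuous_fst).prodMk continuous_snd).continuousOn
  have h₁ : ∀ v ∈ O, HasFDerivAt (fun x : E3 => Z (T x) v.2 - ζ x)
      (P.B (T v.1) v.2 • dT v.1 - dζ v.1) v.1 := by
    intro v hv
    have e1 : HasDerivAt (fun s => Z s v.2) (P.B (T v.1) v.2) (T v.1) := (hZ _ hv.2.1 _ hv.2.2).2.2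
    have e2 : HasFDerivAt (fun x : E3 => Z (T x) v.2) (P.B (T v.1) v.2 • dT v.1) v.1 :=
      HasDerivAt.comp_hasFDerivAt v.1 e1 (hasFDerivAt_T v.1)
    exact e2.fun_sub (hasFDerivAt_ζ hv.1)
  have h₂ : ∀ v ∈ O, HasDerivAt (fun τ : ℝ => Z (T v.1) τ - ζ v.1) (P.A (T v.1) v.2) v.2 :=
    fun v hv => ((hZ _ hv.2.1 _ hv.2.2).2.1).sub_const _
  have c₂ : ContinuousOn (fun v : E3 × ℝ => P.A (T v.1) v.2) O := by
    have := P.smooth_A.continuousOn.comp cT hmap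
    simpa only [Function.comp_def] using this
  have cB : ContinuousOn (fun v : E3 × ℝ => P.B (T v.1) v.2) O := by
    have := P.smooth_B.continuousOn.comp cT hmap
    simpa only [Function.comp_def] using this
  have cdT : Continuous (fun v : E3 × ℝ => dT v.1) := by
    unfold dT
    fun_prop
  have hTc : ContinuousOn (fun v : E3 × ℝ => T v.1) O :=
    (continuous_T.comp continuous_fst).continuousOn
  have h0 : ∀ v ∈ O, T v.1 ≠ 0 := fun v hv => (T_pos hv.1).ne'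
  have q0 : ContinuousOn (fun v : E3 × ℝ => v.1 0 / T v.1) O :=
    ContinuousOn.div (by fun_prop) hTc h0
  have q1 : ContinuousOn (fun v : E3 × ℝ => v.1 1 / T v.1) O :=
    ContinuousOn.div (by fun_prop) hTc h0
  have cdζ : ContinuousOn (fun v : E3 × ℝ => dζ v.1) O := by
    unfold dζ
    exact continuousOn_const.sub ((q0.smul continuousOn_const).sub (q1.smul continuousOn_const))
  have c₁ : ContinuousOn (fun v : E3 × ℝ => P.B (T v.1) v.2 • dT v.1 - dζ v.1) O :=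
    (cB.smul cdT.continuousOn).sub cdζ
  have hne : ∀ v ∈ O, P.A (T v.1) v.2 ≠ 0 := by
    intro v hv
    have hg := hgood v hv
    have h1 := (Real.sqrt_pos.2 hg.2.2.2.1).ne'
    have h2 := hg.2.2.1.ne'
    unfold Prof.A
    exact div_ne_zero (mul_ne_zero (by norm_num) h2) h1
  obtain ⟨φ, hφ0, hφ⟩ := exists_implicit (E := E3) hO hu
    (f := fun X τ => Z (T X) τ - ζ X)
    (f₁ := fun X τ => P.B (T X) τ • dT X - dζ X)
    (f₂ := fun X τ => P.A (T X) τ) h₁ h₂ c₁ c₂ hne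
  refine ⟨φ, by simpa only using hφ0, ?_⟩
  simp only at hφ
  filter_upwards [hφ] with X hX
  obtain ⟨h1, -, h3⟩ := hX
  have hg := hgood _ h1
  have hm : (X, φ X) ∈ Om P := ⟨h1.1, hg⟩
  refine ⟨hm, ?_⟩
  have h4 : HasFDerivAt φ (-(P.A (T X) (φ X))⁻¹ • (P.B (T X) (φ X) • dT X - dζ X)) X := h3
  suffices h5 : -(P.A (T X) (φ X))⁻¹ • (P.B (T X) (φ X) • dT X - dζ X) = dφ P X (φ X) by
    rw [h5] at h4
    exact h4
  have hq := (Real.sqrt_pos.2 hg.2.2.2.1).ne'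
  have hx' := hg.2.2.1.ne'
  have ht := hg.2.2.2.2.ne'
  simp only at hq hx' ht
  ext v
  simp only [dφ, dT, dζ, Prof.A, Prof.B, a0, a1, a2, add_apply,
    sub_apply, smul_apply,
    pr_apply, smul_eq_mul]
  generalize √(P.M (T X) (φ X)) = q at *
  generalize P.x' (φ X) = y at *
  generalize P.N (T X) (φ X) = n at *
  generalize T X = t at *
  field_simp
  ring

end Pool.Agent.TH306.GF
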