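import Mathlib
import Pool.Agent.TH306.GF4

set_option autoImplicit false

open Set Filter Topology MeasureTheory
open scoped ContDiff

namespace Pool.Agent.TH306.GF

variable (P : Prof)

theorem mapsTo_Om : MapsTo (fun v : E3 × ℝ => (T v.1, v.2)) (Om P) P.Reg := fun _ hv => hv.2

lemma contDiff_coord (i : Fin 3) : ContDiff ℝ ∞ (fun v : E3 × ℝ => v.1 i) :=
  (pr i).contDiff.comp contDiff_fst

lemma contDiff_T : ContDiff ℝ ∞ (fun v : E3 × ℝ => T v.1) := by
  unfold T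
  exact ((contDiff_coord 0).pow 2).add ((contDiff_coord 1).pow 2)

lemma contDiff_TT : ContDiff ℝ ∞ (fun v : E3 × ℝ => (T v.1, v.2)) :=
  contDiff_T.prodMk contDiff_snd

lemma lift_smooth {F : ℝ → ℝ → ℝ} (h : ContDiffOn ℝ ∞ (fun p : ℝ × ℝ => F p.1 p.2) P.Reg) :
    ContDiffOn ℝ ∞ (fun v : E3 × ℝ => F (T v.1) v.2) (Om P) := by
  have := h.comp contDiff_TT.contDiffOn (mapsTo_Om P)
  simpa only [Function.comp_def] using this

lemma smooth_a0 : ContDiffOn ℝ ∞ (fun v : E3 × ℝ => a0 P v.1 v.2) (Om P) := by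
  have hN := lift_smooth P P.smooth_N
  have hQ := lift_smooth P (F := fun t τ => √(P.M t τ)) P.smooth_Q
  have hx := lift_smooth P (F := fun _ τ => P.x' τ) P.smooth_x'
  have hT : ContDiffOn ℝ ∞ (fun v : E3 × ℝ => T v.1) (Om P) := contDiff_T.contDiffOn
  have c0 : ContDiffOn ℝ ∞ (fun v : E3 × ℝ => v.1 0) (Om P) := (contDiff_coord 0).contDiffOn
  have c1 : ContDiffOn ℝ ∞ (fun v : E3 × ℝ => v.1 1) (Om P) := (contDiff_coord 1).contDiffOn
  unfold a0
  refine ContDiffOn.div (contDiffOn_const.mul ((hN.mul c0).add (hQ.mul c1)))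
    ((contDiffOn_const.mul hx).mul hT) ?_
  intro v hv
  have h1 := hv.2.2.2.1
  have h2 := hv.2.2.2.2.2
  positivity

lemma smooth_a1 : ContDiffOn ℝ ∞ (fun v : E3 × ℝ => a1 P v.1 v.2) (Om P) := by
  have hN := lift_smooth P P.smooth_N
  have hQ := lift_smooth P (F := fun t τ => √(P.M t τ)) P.smooth_Q
  have hx := lift_smooth P (F := fun _ τ => P.x' τ) P.smooth_x'
  have hT : ContDiffOn ℝ ∞ (fun v : E3 × ℝ => T v.1) (Om P) := contDiff_T.contDiffOn
  have c0 : ContDiffOn ℝ ∞ (fun v : E3 × ℝ => v.1 0) (Om P) := (contDiff_coord 0).contDiffOn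
  have c1 : ContDiffOn ℝ ∞ (fun v : E3 × ℝ => v.1 1) (Om P) := (contDiff_coord 1).contDiffOn
  unfold a1
  refine ContDiffOn.div (contDiffOn_const.mul ((hN.mul c1).sub (hQ.mul c0)))
    ((contDiffOn_const.mul hx).mul hT) ?_
  intro v hv
  have h1 := hv.2.2.2.1
  have h2 := hv.2.2.2.2.2
  positivity

lemma smooth_a2 : ContDiffOn ℝ ∞ (fun v : E3 × ℝ => a2 P v.1 v.2) (Om P) := by
  have hQ := lift_smooth P (F := fun t τ => √(P.M t τ)) P.smooth_Q
  have hx := lift_smooth P (F := fun _ τ => P.x' τ) P.smooth_x'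
  unfold a2
  refine ContDiffOn.div (contDiffOn_const.mul hQ) (contDiffOn_const.mul hx) ?_
  intro v hv
  have h1 := hv.2.2.2.1
  positivity

lemma smooth_dφ : ContDiffOn ℝ ∞ (fun v : E3 × ℝ => dφ P v.1 v.2) (Om P) := by
  unfold dφ
  exact (((smooth_a0 P).smul contDiffOn_const).add ((smooth_a1 P).smul contDiffOn_const)).add
    ((smooth_a2 P).smul contDiffOn_const)

/-- The local solution of the total differential system. -/
structure Sol (P : Prof) where
  φ : E3 → ℝ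
  ρ : ℝ
  hρ : 0 < ρ
  base : φ X₀ = 0
  mem : ∀ X ∈ Metric.ball X₀ ρ, (X, φ X) ∈ Om P
  der : ∀ X ∈ Metric.ball X₀ ρ, HasFDerivAt φ (dφ P X (φ X)) X

theorem exists_sol : Nonempty (Sol P) := by
  obtain ⟨φ, h0, h⟩ := exists_φ0 P
  obtain ⟨ρ, hρ, hb⟩ := Metric.eventually_nhds_iff_ball.1 h
  exact ⟨⟨φ, ρ, hρ, h0, fun X hX => (hb X hX).1, fun X hX => (hb X hX).2⟩⟩

namespace Sol

variable {P} (S : Sol P)

def V : Set E3 := Metric.ball X₀ S.ρ

lemma isOpen_V : IsOpen S.V := Metric.isOpen_ball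

theorem smooth_φ_nat (n : ℕ) : ContDiffOn ℝ n S.φ S.V := by
  induction n with
  | zero =>
    simp only [Nat.cast_zero, contDiffOn_zero]
    exact fun X hX => (S.der X hX).continuousAt.continuousWithinAt
  | succ n ih =>
    have h1 : ContDiffOn ℝ n (fun X => dφ P X (S.φ X)) S.V := by
      have h2 : ContDiffOn ℝ n (fun v : E3 × ℝ => dφ P v.1 v.2) (Om P) :=
        (smooth_dφ P).of_le (by exact_mod_cast le_top)
      have h3 : ContDiffOn ℝ n (fun X : E3 => (X, S.φ X)) S.V := contDiffOn_id.prodMk ih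
      have := h2.comp h3 (fun X hX => S.mem X hX)
      simpa only [Function.comp_def] using this
    push_cast
    rw [contDiffOn_succ_iff_fderiv_of_isOpen S.isOpen_V]
    refine ⟨fun X hX => (S.der X hX).differentiableAt.differentiableWithinAt, by simp, ?_⟩
    exact h1.congr (fun X hX => (S.der X hX).fderiv)

theorem smooth_φ : ContDiffOn ℝ ∞ S.φ S.V := contDiffOn_infty.2 S.smooth_φ_nat

lemma lift {F : E3 → ℝ → ℝ} (h : ContDiffOn ℝ ∞ (fun v : E3 × ℝ => F v.1 v.2) (Om P)) :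
    ContDiffOn ℝ ∞ (fun X => F X (S.φ X)) S.V := by
  have h3 : ContDiffOn ℝ ∞ (fun X : E3 => (X, S.φ X)) S.V := contDiffOn_id.prodMk S.smooth_φ
  have := h.comp h3 (fun X hX => S.mem X hX)
  simpa only [Function.comp_def] using this

/-- radial, azimuthal, axial components -/
noncomputable def q (X : E3) : ℝ := √(P.M (T X) (S.φ X))
noncomputable def m (X : E3) : ℝ := P.m (T X) (S.φ X)
noncomputable def g (X : E3) : ℝ := P.g (T X) (S.φ X)

noncomputable def u0 (X : E3) : ℝ := (-(S.q X * X 0) - S.m X * X 1) / T X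
noncomputable def u1 (X : E3) : ℝ := (-(S.q X * X 1) + S.m X * X 0) / T X

/-- the velocity -/
noncomputable def vel (X : E3) : E3 := !₂[S.u0 X, S.u1 X, S.g X]
/-- the pressure -/
noncomputable def prs (X : E3) : ℝ := 2 / 3 * Real.log (P.x (S.φ X))

lemma smooth_q : ContDiffOn ℝ ∞ S.q S.V :=
  S.lift (F := fun X τ => √(P.M (T X) τ))
    (lift_smooth P (F := fun t τ => √(P.M t τ)) P.smooth_Q)
lemma smooth_m : ContDiffOn ℝ ∞ S.m S.V :=
  S.lift (F := fun X τ => P.m (T X) τ) (lift_smooth P P.smooth_m)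
lemma smooth_g : ContDiffOn ℝ ∞ S.g S.V :=
  S.lift (F := fun X τ => P.g (T X) τ) (lift_smooth P P.smooth_g)
lemma smooth_T : ContDiffOn ℝ ∞ T S.V := by
  have : ContDiff ℝ ∞ T := by
    unfold T
    exact (((pr 0).contDiff).pow 2).add (((pr 1).contDiff).pow 2)
  exact this.contDiffOn

lemma T_pos {X : E3} (hX : X ∈ S.V) : 0 < T X := GF.T_pos (S.mem X hX).1

lemma smooth_u0 : ContDiffOn ℝ ∞ S.u0 S.V := by
  unfold u0
  exact ((S.smooth_q.mul (pr 0).contDiff.contDiffOn).neg.sub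
    (S.smooth_m.mul (pr 1).contDiff.contDiffOn)).div S.smooth_T (fun X hX => (S.T_pos hX).ne')
lemma smooth_u1 : ContDiffOn ℝ ∞ S.u1 S.V := by
  unfold u1
  exact ((S.smooth_q.mul (pr 1).contDiff.contDiffOn).neg.add
    (S.smooth_m.mul (pr 0).contDiff.contDiffOn)).div S.smooth_T (fun X hX => (S.T_pos hX).ne')

theorem smooth_vel : ContDiffOn ℝ ∞ S.vel S.V := by
  rw [contDiffOn_euclidean]
  intro i
  fin_cases i
  · exact S.smooth_u0
  · exact S.smooth_u1
  · exact S.smooth_g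

lemma smooth_xφ : ContDiffOn ℝ ∞ (fun X => P.x (S.φ X)) S.V :=
  S.lift (F := fun _ τ => P.x τ) (lift_smooth P (F := fun _ τ => P.x τ) P.smooth_x)

theorem smooth_prs : ContDiffOn ℝ ∞ S.prs S.V := by
  unfold prs
  exact contDiffOn_const.mul (S.smooth_xφ.log (fun X hX => (S.mem X hX).2.2.1.ne'))

end Sol

end Pool.Agent.TH306.GF
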