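import Mathlib
import Pool.Agent.TH306.GF5

set_option autoImplicit false

open Set Filter Topology MeasureTheory
open scoped ContDiff

namespace Pool.Agent.TH306.GF

namespace Sol

variable {P : Prof} (S : Sol P)

/-- differentials at a point -/
noncomputable def D (X : E3) : E3 →L[ℝ] ℝ := dφ P X (S.φ X)
noncomputable def Lg (X : E3) : E3 →L[ℝ] ℝ :=
  P.gt (S.φ X) • dT X + P.gτ (T X) (S.φ X) • S.D X
noncomputable def Lm (X : E3) : E3 →L[ℝ] ℝ :=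
  (-P.gt (S.φ X)) • dT X + P.mτ (T X) (S.φ X) • S.D X
noncomputable def Lq (X : E3) : E3 →L[ℝ] ℝ :=
  (P.Mt (T X) (S.φ X) / (2 * S.q X)) • dT X + (P.Mτ (T X) (S.φ X) / (2 * S.q X)) • S.D X
noncomputable def Lp (X : E3) : E3 →L[ℝ] ℝ :=
  (2 / 3 * (P.x' (S.φ X) / P.x (S.φ X))) • S.D X
noncomputable def L0 (X : E3) : E3 →L[ℝ] ℝ :=
  (T X)⁻¹ • (-(S.q X • pr 0 + X 0 • S.Lq X) - (S.m X • pr 1 + X 1 • S.Lm X))
    - ((-(S.q X * X 0) - S.m X * X 1) / T X ^ 2) • dT X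
noncomputable def L1 (X : E3) : E3 →L[ℝ] ℝ :=
  (T X)⁻¹ • (-(S.q X • pr 1 + X 1 • S.Lq X) + (S.m X • pr 0 + X 0 • S.Lm X))
    - ((-(S.q X * X 1) + S.m X * X 0) / T X ^ 2) • dT X

variable {X : E3} (hX : X ∈ S.V)
include hX

lemma good : P.Good (T X) (S.φ X) := (S.mem X hX).2
lemma hφ : HasFDerivAt S.φ (S.D X) X := S.der X hX
lemma q_pos : 0 < S.q X := Real.sqrt_pos.2 (S.good hX).2.2.2.1
lemma q_sq : S.q X ^ 2 = T X - S.m X ^ 2 - T X * S.g X ^ 2 := Real.sq_sqrt (S.good hX).2.2.2.1.le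
lemma x_pos : 0 < P.x (S.φ X) := (S.good hX).2.1
lemma x'_pos : 0 < P.x' (S.φ X) := (S.good hX).2.2.1

lemma has_x : HasFDerivAt (fun Y => P.x (S.φ Y)) (P.x' (S.φ X) • S.D X) X := by
  have h1 : HasDerivAt P.x (P.x' (S.φ X)) (S.φ X) := P.hx _ (S.good hX).1
  exact HasDerivAt.comp_hasFDerivAt X h1 (S.hφ hX)

lemma has_G : HasFDerivAt (fun Y => P.G (S.φ Y)) (P.G' (S.φ X) • S.D X) X := by
  have h1 : HasDerivAt P.G (P.G' (S.φ X)) (S.φ X) := P.hG _ (S.good hX).1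
  exact HasDerivAt.comp_hasFDerivAt X h1 (S.hφ hX)

lemma has_C : HasFDerivAt (fun Y => P.C (S.φ Y)) (P.C' (S.φ X) • S.D X) X := by
  have h1 : HasDerivAt P.C (P.C' (S.φ X)) (S.φ X) := P.hC _ (S.good hX).1
  exact HasDerivAt.comp_hasFDerivAt X h1 (S.hφ hX)

lemma has_g : HasFDerivAt S.g (S.Lg X) X := by
  have hx := (S.x_pos hX).ne'
  have h1 : HasFDerivAt (fun Y => P.G (S.φ Y) - (T Y + 1) / (2 * P.x (S.φ Y))) _ X :=
    (S.has_G hX).fun_sub (hasFDerivAt_quot ((hasFDerivAt_T X).add_const 1)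
      ((S.has_x hX).const_mul 2) (by simpa using hx))
  have h2 : HasFDerivAt S.g _ X := h1
  refine h2.congr_fderiv ?_
  ext v
  simp only [Lg, Prof.gt, Prof.gτ, add_apply, sub_apply, smul_apply, smul_eq_mul]
  field_simp
  ring

lemma has_m : HasFDerivAt S.m (S.Lm X) X := by
  have h1 : HasFDerivAt (fun Y => P.C (S.φ Y) - S.g Y) _ X := (S.has_C hX).fun_sub (S.has_g hX)
  have h2 : HasFDerivAt S.m _ X := h1
  refine h2.congr_fderiv ?_
  ext v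
  simp only [Lg, Lm, Prof.mτ, add_apply, sub_apply, smul_apply, smul_eq_mul]
  ring

lemma has_q : HasFDerivAt S.q (S.Lq X) X := by
  have hM : HasFDerivAt (fun Y => T Y - S.m Y ^ 2 - T Y * S.g Y ^ 2) _ X :=
    ((hasFDerivAt_T X).fun_sub ((S.has_m hX).pow 2)).fun_sub
      ((hasFDerivAt_T X).fun_mul ((S.has_g hX).pow 2))
  have hpos : T X - S.m X ^ 2 - T X * S.g X ^ 2 ≠ 0 := (S.good hX).2.2.2.1.ne'
  have h2 : HasFDerivAt S.q _ X := hM.sqrt hpos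
  refine h2.congr_fderiv ?_
  have hq : √(T X - S.m X ^ 2 - T X * S.g X ^ 2) = S.q X := rfl
  have hq0 := (S.q_pos hX).ne'
  ext v
  simp only [hq, Lg, Lm, Lq, Prof.Mt, Prof.Mτ, add_apply, sub_apply, smul_apply, smul_eq_mul,
    nsmul_eq_mul, Nat.cast_ofNat, Nat.add_one_sub_one, pow_one]
  have e1 : P.m (T X) (S.φ X) = S.m X := rfl
  have e2 : P.g (T X) (S.φ X) = S.g X := rfl
  rw [e1, e2]
  field_simp
  ring

lemma has_p : HasFDerivAt S.prs (S.Lp X) X := by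
  have hx := (S.x_pos hX).ne'
  have h1 : HasFDerivAt S.prs _ X := ((S.has_x hX).log hx).const_mul (2 / 3)
  refine h1.congr_fderiv ?_
  ext v
  simp only [Lp, smul_apply, smul_eq_mul]
  field_simp

lemma has_u0 : HasFDerivAt S.u0 (S.L0 X) X := by
  have hT := (S.T_pos hX).ne'
  have h1 : HasFDerivAt (fun Y => (-(S.q Y * Y 0) - S.m Y * Y 1) / T Y) _ X :=
    hasFDerivAt_quot ((((S.has_q hX).fun_mul (hasFDerivAt_coord 0 X)).fun_neg).fun_sub
      ((S.has_m hX).fun_mul (hasFDerivAt_coord 1 X))) (hasFDerivAt_T X) hT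
  have h2 : HasFDerivAt S.u0 _ X := h1
  exact h2

lemma has_u1 : HasFDerivAt S.u1 (S.L1 X) X := by
  have hT := (S.T_pos hX).ne'
  have h1 : HasFDerivAt (fun Y => (-(S.q Y * Y 1) + S.m Y * Y 0) / T Y) _ X :=
    hasFDerivAt_quot ((((S.has_q hX).fun_mul (hasFDerivAt_coord 1 X)).fun_neg).fun_add
      ((S.has_m hX).fun_mul (hasFDerivAt_coord 0 X))) (hasFDerivAt_T X) hT
  have h2 : HasFDerivAt S.u1 _ X := h1
  exact h2

lemma diff_vel : DifferentiableAt ℝ S.vel X :=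
  (S.smooth_vel.contDiffAt (S.isOpen_V.mem_nhds hX)).differentiableAt (by simp)

lemma fderiv_vel (v : E3) : fderiv ℝ S.vel X v 0 = S.L0 X v ∧ fderiv ℝ S.vel X v 1 = S.L1 X v ∧
    fderiv ℝ S.vel X v 2 = S.Lg X v := by
  have h := (S.diff_vel hX).hasFDerivAt
  have key : ∀ (i : Fin 3), HasFDerivAt (fun Y => S.vel Y i) ((pr i).comp (fderiv ℝ S.vel X)) X :=
    fun i => (pr i).hasFDerivAt.comp X h
  have h0 : HasFDerivAt (fun Y => S.vel Y 0) (S.L0 X) X := S.has_u0 hX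
  have h1 : HasFDerivAt (fun Y => S.vel Y 1) (S.L1 X) X := S.has_u1 hX
  have h2 : HasFDerivAt (fun Y => S.vel Y 2) (S.Lg X) X := S.has_g hX
  refine ⟨?_, ?_, ?_⟩
  · rw [← (key 0).unique h0]; rfl
  · rw [← (key 1).unique h1]; rfl
  · rw [← (key 2).unique h2]; rfl

end Sol

end Pool.Agent.TH306.GF
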