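import Mathlib
import Pool.Agent.TH306.GF6

set_option autoImplicit false

open Set Filter Topology MeasureTheory
open scoped ContDiff

namespace Pool.Agent.TH306.GF

namespace Sol

variable {P : Prof} (S : Sol P)
variable {X : E3} (hX : X ∈ S.V)
include hX

omit hX in
lemma vel_0 : S.vel X 0 = S.u0 X := rfl
omit hX in
lemma vel_1 : S.vel X 1 = S.u1 X := rfl
omit hX in
lemma vel_2 : S.vel X 2 = S.g X := rfl

lemma hT : T X ≠ 0 := (S.T_pos hX).ne'

lemma rad : X 0 * S.u0 X + X 1 * S.u1 X = -S.q X := by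
  have hT := S.hT hX
  unfold u0 u1
  field_simp
  unfold T
  ring

lemma azi : X 0 * S.u1 X - X 1 * S.u0 X = S.m X := by
  have hT := S.hT hX
  unfold u0 u1
  field_simp
  unfold T
  ring

lemma dT_vel : dT X (S.vel X) = -2 * S.q X := by
  have := S.rad hX
  simp only [dT, add_apply, smul_apply, smul_eq_mul, pr_apply, vel_0, vel_1]
  linear_combination 2 * this

lemma D_vel : S.D X (S.vel X) = 0 := by
  have h1 := S.rad hX
  have h2 := S.azi hX
  have hT := S.hT hX
  have hx := (S.x'_pos hX).ne'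
  have eq1 : √(P.M (T X) (S.φ X)) = S.q X := rfl
  have eN : P.N (T X) (S.φ X) = T X * S.g X - S.m X := rfl
  simp only [D, dφ, a0, a1, a2, add_apply, smul_apply, smul_eq_mul, pr_apply, vel_0, vel_1, vel_2,
    eq1, eN]
  field_simp
  linear_combination (-3 * (T X * S.g X - S.m X)) * h1 + (3 * S.q X) * h2

lemma Lg_vel : S.Lg X (S.vel X) = S.q X / P.x (S.φ X) := by
  have h1 := S.dT_vel hX
  have h2 := S.D_vel hX
  have hx := (S.x_pos hX).ne'
  simp only [Lg, add_apply, smul_apply, smul_eq_mul, h1, h2, Prof.gt]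
  field_simp
  ring

lemma Lm_vel : S.Lm X (S.vel X) = -(S.q X / P.x (S.φ X)) := by
  have h1 := S.dT_vel hX
  have h2 := S.D_vel hX
  have hx := (S.x_pos hX).ne'
  simp only [Lm, add_apply, smul_apply, smul_eq_mul, h1, h2, Prof.gt]
  field_simp
  ring

lemma Lq_vel : S.Lq X (S.vel X) = -P.Mt (T X) (S.φ X) := by
  have h1 := S.dT_vel hX
  have h2 := S.D_vel hX
  have hq := (S.q_pos hX).ne'
  simp only [Lq, add_apply, smul_apply, smul_eq_mul, h1, h2]
  field_simp
  ring

/-- orthogonality -/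
theorem orth : S.Lp X (S.vel X) = 0 := by
  simp only [Lp, smul_apply, smul_eq_mul, S.D_vel hX, mul_zero]

/-- value of the pressure differential -/
lemma Lp_eq (v : E3) : S.Lp X v = -((P.N (T X) (S.φ X) * X 0 + S.q X * X 1) / (P.x (S.φ X) * T X)) * v 0
    - ((P.N (T X) (S.φ X) * X 1 - S.q X * X 0) / (P.x (S.φ X) * T X)) * v 1
    - (S.q X / P.x (S.φ X)) * v 2 := by
  have hT := S.hT hX
  have hx := (S.x'_pos hX).ne'
  have hx2 := (S.x_pos hX).ne'
  have eq1 : √(P.M (T X) (S.φ X)) = S.q X := rfl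
  simp only [Lp, D, dφ, a0, a1, a2, add_apply, smul_apply, smul_eq_mul, pr_apply, eq1]
  field_simp
  ring

/-- third momentum equation -/
theorem mom2 : S.Lg X (S.vel X) + S.Lp X (EuclideanSpace.single 2 1) = 0 := by
  rw [S.Lg_vel hX, S.Lp_eq hX]
  simp

/-- first momentum equation -/
theorem mom0 : S.L0 X (S.vel X) + S.Lp X (EuclideanSpace.single 0 1) = 0 := by
  have h1 := S.dT_vel hX
  have h3 := S.Lm_vel hX
  have h4 := S.Lq_vel hX
  have hT := S.hT hX
  have hx := (S.x_pos hX).ne'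
  have hq2 := S.q_sq hX
  have eN : P.N (T X) (S.φ X) = T X * S.g X - S.m X := rfl
  have e1 : P.m (T X) (S.φ X) = S.m X := rfl
  have e2 : P.g (T X) (S.φ X) = S.g X := rfl
  rw [S.Lp_eq hX]
  simp only [L0, add_apply, sub_apply, neg_apply, smul_apply, smul_eq_mul, pr_apply, h1, h3, h4,
    vel_0, vel_1, Prof.Mt, eN, e1, e2, u0, u1, Prof.gt]
  simp only [PiLp.single_apply]
  simp
  field_simp
  linear_combination (-P.x (S.φ X) * X 0) * hq2

/-- second momentum equation -/
theorem mom1 : S.L1 X (S.vel X) + S.Lp X (EuclideanSpace.single 1 1) = 0 := by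
  have h1 := S.dT_vel hX
  have h3 := S.Lm_vel hX
  have h4 := S.Lq_vel hX
  have hT := S.hT hX
  have hx := (S.x_pos hX).ne'
  have hq2 := S.q_sq hX
  have eN : P.N (T X) (S.φ X) = T X * S.g X - S.m X := rfl
  have e1 : P.m (T X) (S.φ X) = S.m X := rfl
  have e2 : P.g (T X) (S.φ X) = S.g X := rfl
  rw [S.Lp_eq hX]
  simp only [L1, add_apply, sub_apply, neg_apply, smul_apply, smul_eq_mul, pr_apply, h1, h3, h4,
    vel_0, vel_1, Prof.Mt, eN, e1, e2, u0, u1, Prof.gt]
  simp only [PiLp.single_apply]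
  simp
  field_simp
  linear_combination (-P.x (S.φ X) * X 1) * hq2

/-- incompressibility -/
theorem divfree : S.L0 X (EuclideanSpace.single 0 1) + S.L1 X (EuclideanSpace.single 1 1)
    + S.Lg X (EuclideanSpace.single 2 1) = 0 := by
  have hT := S.hT hX
  have hx := (S.x'_pos hX).ne'
  have hq := (S.q_pos hX).ne'
  have hk := P.key (T X) (S.φ X) (S.x_pos hX).ne'
  have hM : P.M (T X) (S.φ X) = S.q X ^ 2 := (S.q_sq hX).symm
  rw [hM] at hk
  have eNτ : P.Nτ (T X) (S.φ X) = T X * P.gτ (T X) (S.φ X) - P.mτ (T X) (S.φ X) := rfl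
  rw [eNτ] at hk
  have hTT : X 0 ^ 2 + X 1 ^ 2 = T X := rfl
  have d0 : S.D X (EuclideanSpace.single 0 1) =
      -3 * (P.N (T X) (S.φ X) * X 0 + S.q X * X 1) / (2 * P.x' (S.φ X) * T X) := by
    simp only [D, dφ, add_apply, smul_apply, smul_eq_mul, pr_apply, PiLp.single_apply]
    simp [a0, q]
  have d1 : S.D X (EuclideanSpace.single 1 1) =
      -3 * (P.N (T X) (S.φ X) * X 1 - S.q X * X 0) / (2 * P.x' (S.φ X) * T X) := by
    simp only [D, dφ, add_apply, smul_apply, smul_eq_mul, pr_apply, PiLp.single_apply]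
    simp [a1, q]
  have d2 : S.D X (EuclideanSpace.single 2 1) = -3 * S.q X / (2 * P.x' (S.φ X)) := by
    simp only [D, dφ, add_apply, smul_apply, smul_eq_mul, pr_apply, PiLp.single_apply]
    simp [a2, q]
  have t0 : dT X (EuclideanSpace.single 0 1) = 2 * X 0 := by
    simp only [dT, add_apply, smul_apply, smul_eq_mul, pr_apply, PiLp.single_apply]
    simp
  have t1 : dT X (EuclideanSpace.single 1 1) = 2 * X 1 := by
    simp only [dT, add_apply, smul_apply, smul_eq_mul, pr_apply, PiLp.single_apply]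
    simp
  have t2 : dT X (EuclideanSpace.single 2 1) = 0 := by
    simp only [dT, add_apply, smul_apply, smul_eq_mul, pr_apply, PiLp.single_apply]
    simp
  simp only [L0, L1, Lg, Lm, Lq, add_apply, sub_apply, neg_apply, smul_apply, smul_eq_mul,
    pr_apply, d0, d1, d2, t0, t1, t2, PiLp.single_apply]
  simp only [if_true, Fin.isValue, one_ne_zero, zero_ne_one, if_false, mul_zero, mul_one, zero_add]
  generalize P.N (T X) (S.φ X) = n at *
  generalize P.Mτ (T X) (S.φ X) = m' at *
  generalize P.Mt (T X) (S.φ X) = m'' at *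
  generalize P.x' (S.φ X) = y at *
  generalize P.gτ (T X) (S.φ X) = g' at *
  generalize P.mτ (T X) (S.φ X) = k' at *
  generalize P.gt (S.φ X) = g'' at *
  generalize S.q X = qq at *
  generalize S.m X = mm at *
  generalize T X = t at *
  generalize X 0 = x0 at *
  generalize X 1 = x1 at *
  subst hTT
  field_simp
  linear_combination (-(x0 ^ 2 + x1 ^ 2)) * hk

end Sol

end Pool.Agent.TH306.GF
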