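import Mathlib

set_option autoImplicit false

open Set Filter Topology MeasureTheory
open scoped ContDiff

namespace Pool.Agent.TH306.Rot

abbrev E3 := EuclideanSpace ℝ (Fin 3)

/-- Rotation by the angle `θ` about the direction `d` (Rodrigues formula), as a linear map. -/
noncomputable def rotL (d : E3) (θ : ℝ) : E3 →ₗ[ℝ] E3 where
  toFun v := !₂[
    Real.cos θ * v 0 + Real.sin θ * (d 1 * v 2 - d 2 * v 1)
      + (1 - Real.cos θ) * (d 0 * v 0 + d 1 * v 1 + d 2 * v 2) * d 0,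
    Real.cos θ * v 1 + Real.sin θ * (d 2 * v 0 - d 0 * v 2)
      + (1 - Real.cos θ) * (d 0 * v 0 + d 1 * v 1 + d 2 * v 2) * d 1,
    Real.cos θ * v 2 + Real.sin θ * (d 0 * v 1 - d 1 * v 0)
      + (1 - Real.cos θ) * (d 0 * v 0 + d 1 * v 1 + d 2 * v 2) * d 2]
  map_add' v w := by
    ext i
    fin_cases i <;> simp <;> ring
  map_smul' c v := by
    ext i
    fin_cases i <;> simp <;> ring

lemma rotL_0 (d : E3) (θ : ℝ) (v : E3) : rotL d θ v 0 =
    Real.cos θ * v 0 + Real.sin θ * (d 1 * v 2 - d 2 * v 1)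
      + (1 - Real.cos θ) * (d 0 * v 0 + d 1 * v 1 + d 2 * v 2) * d 0 := rfl
lemma rotL_1 (d : E3) (θ : ℝ) (v : E3) : rotL d θ v 1 =
    Real.cos θ * v 1 + Real.sin θ * (d 2 * v 0 - d 0 * v 2)
      + (1 - Real.cos θ) * (d 0 * v 0 + d 1 * v 1 + d 2 * v 2) * d 1 := rfl
lemma rotL_2 (d : E3) (θ : ℝ) (v : E3) : rotL d θ v 2 =
    Real.cos θ * v 2 + Real.sin θ * (d 0 * v 1 - d 1 * v 0)
      + (1 - Real.cos θ) * (d 0 * v 0 + d 1 * v 1 + d 2 * v 2) * d 2 := rfl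

lemma norm_rotL {d : E3} (hd : d 0 ^ 2 + d 1 ^ 2 + d 2 ^ 2 = 1) (θ : ℝ) (v : E3) :
    ‖rotL d θ v‖ = ‖v‖ := by
  rw [EuclideanSpace.norm_eq, EuclideanSpace.norm_eq]
  congr 1
  simp only [Fin.sum_univ_three, Real.norm_eq_abs, sq_abs, rotL_0, rotL_1, rotL_2]
  have hcs := Real.sin_sq_add_cos_sq θ
  generalize Real.cos θ = c at *
  generalize Real.sin θ = s at *
  generalize d 0 = d0 at *
  generalize d 1 = d1 at *
  generalize d 2 = d2 at *
  generalize v 0 = v0 at *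
  generalize v 1 = v1 at *
  generalize v 2 = v2 at *
  have hs : s ^ 2 = 1 - c ^ 2 := by linarith
  linear_combination (s ^ 2 * (v0 ^ 2 + v1 ^ 2 + v2 ^ 2)
    + (1 - c) ^ 2 * (d0 * v0 + d1 * v1 + d2 * v2) ^ 2) * hd
    + ((v0 ^ 2 + v1 ^ 2 + v2 ^ 2) - (d0 * v0 + d1 * v1 + d2 * v2) ^ 2) * hcs

lemma finrank_E3 : Module.finrank ℝ E3 = 3 := by simp

/-- the rotation as a linear isometry -/
noncomputable def rotI (d : E3) (hd : d 0 ^ 2 + d 1 ^ 2 + d 2 ^ 2 = 1) (θ : ℝ) : E3 →ₗᵢ[ℝ] E3 where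
  toLinearMap := rotL d θ
  norm_map' := norm_rotL hd θ

/-- the rotation as a linear isometry equivalence -/
noncomputable def rotE (d : E3) (hd : d 0 ^ 2 + d 1 ^ 2 + d 2 ^ 2 = 1) (θ : ℝ) : E3 ≃ₗᵢ[ℝ] E3 :=
  (rotI d hd θ).toLinearIsometryEquiv rfl

lemma rotE_apply (d : E3) (hd : d 0 ^ 2 + d 1 ^ 2 + d 2 ^ 2 = 1) (θ : ℝ) (v : E3) :
    rotE d hd θ v = rotL d θ v := rfl

lemma rotL_two {d : E3} (hd : d 0 ^ 2 + d 1 ^ 2 + d 2 ^ 2 = 1) (θ : ℝ) :
    rotL d (2 * θ) = (rotL d θ).comp (rotL d θ) := by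
  apply LinearMap.ext
  intro v
  rw [LinearMap.comp_apply]
  have hcs := Real.sin_sq_add_cos_sq θ
  have e0 : rotL d (2 * θ) v 0 = rotL d θ (rotL d θ v) 0 := by
    simp only [rotL_0, rotL_1, rotL_2, Real.cos_two_mul, Real.sin_two_mul]
    generalize Real.cos θ = c at *
    generalize Real.sin θ = s at *
    linear_combination (v 0 - (d 0 * v 0 + d 1 * v 1 + d 2 * v 2) * d 0) * hcs
      + (s ^ 2 * v 0 - (d 0 * v 0 + d 1 * v 1 + d 2 * v 2) * d 0 * (1 - c) ^ 2) * hd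
  have e1 : rotL d (2 * θ) v 1 = rotL d θ (rotL d θ v) 1 := by
    simp only [rotL_0, rotL_1, rotL_2, Real.cos_two_mul, Real.sin_two_mul]
    generalize Real.cos θ = c at *
    generalize Real.sin θ = s at *
    linear_combination (v 1 - (d 0 * v 0 + d 1 * v 1 + d 2 * v 2) * d 1) * hcs
      + (s ^ 2 * v 1 - (d 0 * v 0 + d 1 * v 1 + d 2 * v 2) * d 1 * (1 - c) ^ 2) * hd
  have e2 : rotL d (2 * θ) v 2 = rotL d θ (rotL d θ v) 2 := by
    simp only [rotL_0, rotL_1, rotL_2, Real.cos_two_mul, Real.sin_two_mul]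
    generalize Real.cos θ = c at *
    generalize Real.sin θ = s at *
    linear_combination (v 2 - (d 0 * v 0 + d 1 * v 1 + d 2 * v 2) * d 2) * hcs
      + (s ^ 2 * v 2 - (d 0 * v 0 + d 1 * v 1 + d 2 * v 2) * d 2 * (1 - c) ^ 2) * hd
  ext i
  fin_cases i
  · exact e0
  · exact e1
  · exact e2

lemma det_rotL {d : E3} (hd : d 0 ^ 2 + d 1 ^ 2 + d 2 ^ 2 = 1) (θ : ℝ) :
    LinearMap.det (rotL d θ) = 1 := by
  have h1 : rotL d θ = (rotL d (θ / 2)).comp (rotL d (θ / 2)) := by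
    rw [← rotL_two hd]
    congr 1
    ring
  have h2 : |LinearMap.det (rotL d (θ / 2))| = 1 := by
    rw [← LinearMap.normDet_eq_abs_det]
    exact (rotI d hd (θ / 2)).normDet_eq_one
  rw [h1, LinearMap.det_comp, ← sq, ← sq_abs, h2, one_pow]

lemma det_rotE (d : E3) (hd : d 0 ^ 2 + d 1 ^ 2 + d 2 ^ 2 = 1) (θ : ℝ) :
    LinearMap.det ((rotE d hd θ).toLinearEquiv : E3 →ₗ[ℝ] E3) = 1 := by
  have : ((rotE d hd θ).toLinearEquiv : E3 →ₗ[ℝ] E3) = rotL d θ := by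
    apply LinearMap.ext
    intro v
    rfl
  rw [this, det_rotL hd]

lemma rotE_self (d : E3) (hd : d 0 ^ 2 + d 1 ^ 2 + d 2 ^ 2 = 1) (θ : ℝ) : rotE d hd θ d = d := by
  rw [rotE_apply]
  have e0 : rotL d θ d 0 = d 0 := by
    rw [rotL_0]
    linear_combination ((1 - Real.cos θ) * d 0) * hd
  have e1 : rotL d θ d 1 = d 1 := by
    rw [rotL_1]
    linear_combination ((1 - Real.cos θ) * d 1) * hd
  have e2 : rotL d θ d 2 = d 2 := by
    rw [rotL_2]
    linear_combination ((1 - Real.cos θ) * d 2) * hd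
  ext i
  fin_cases i
  · exact e0
  · exact e1
  · exact e2

/-- the cross product -/
noncomputable def cross (d v : E3) : E3 :=
  !₂[d 1 * v 2 - d 2 * v 1, d 2 * v 0 - d 0 * v 2, d 0 * v 1 - d 1 * v 0]

lemma rotL_zero (d v : E3) : rotL d 0 v = v := by
  have e0 : rotL d 0 v 0 = v 0 := by rw [rotL_0]; simp
  have e1 : rotL d 0 v 1 = v 1 := by rw [rotL_1]; simp
  have e2 : rotL d 0 v 2 = v 2 := by rw [rotL_2]; simp
  ext i
  fin_cases i
  · exact e0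
  · exact e1
  · exact e2

lemma rotL_eq (d v : E3) (θ : ℝ) : rotL d θ v = Real.cos θ • v + Real.sin θ • cross d v
    + (1 - Real.cos θ) • ((d 0 * v 0 + d 1 * v 1 + d 2 * v 2) • d) := by
  have e0 : rotL d θ v 0 = (Real.cos θ • v + Real.sin θ • cross d v
    + (1 - Real.cos θ) • ((d 0 * v 0 + d 1 * v 1 + d 2 * v 2) • d) : E3) 0 := by
    rw [rotL_0]
    simp only [PiLp.add_apply, PiLp.smul_apply, smul_eq_mul]
    have : cross d v 0 = d 1 * v 2 - d 2 * v 1 := rfl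
    rw [this]
    ring
  have e1 : rotL d θ v 1 = (Real.cos θ • v + Real.sin θ • cross d v
    + (1 - Real.cos θ) • ((d 0 * v 0 + d 1 * v 1 + d 2 * v 2) • d) : E3) 1 := by
    rw [rotL_1]
    simp only [PiLp.add_apply, PiLp.smul_apply, smul_eq_mul]
    have : cross d v 1 = d 2 * v 0 - d 0 * v 2 := rfl
    rw [this]
    ring
  have e2 : rotL d θ v 2 = (Real.cos θ • v + Real.sin θ • cross d v
    + (1 - Real.cos θ) • ((d 0 * v 0 + d 1 * v 1 + d 2 * v 2) • d) : E3) 2 := by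
    rw [rotL_2]
    simp only [PiLp.add_apply, PiLp.smul_apply, smul_eq_mul]
    have : cross d v 2 = d 0 * v 1 - d 1 * v 0 := rfl
    rw [this]
    ring
  ext i
  fin_cases i
  · exact e0
  · exact e1
  · exact e2

/-- the derivative of the rotation at the angle zero -/
lemma hasDerivAt_rotL (d v : E3) : HasDerivAt (fun θ => rotL d θ v) (cross d v) 0 := by
  have hc := Real.hasDerivAt_cos 0
  have hs := Real.hasDerivAt_sin 0
  have h := ((hc.smul_const v).fun_add (hs.smul_const (cross d v))).fun_add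
      ((hc.const_sub 1).smul_const ((d 0 * v 0 + d 1 * v 1 + d 2 * v 2) • d))
  simp only [rotL_eq]
  refine h.congr_deriv ?_
  simp

/-- invariance of `p` under all rotations about the line `a + ℝ d` gives an infinitesimal identity -/
theorem infinitesimal {V : Set E3} (hV : IsOpen V) {p : E3 → ℝ} {a d : E3}
    (hd : d ≠ 0)
    (h : ∀ A : E3 ≃ₗᵢ[ℝ] E3, LinearMap.det (A.toLinearEquiv : E3 →ₗ[ℝ] E3) = 1 → A d = d →
      ∀ x ∈ V, a + A (x - a) ∈ V → p (a + A (x - a)) = p x) :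
    ∃ e : E3, e 0 ^ 2 + e 1 ^ 2 + e 2 ^ 2 = 1 ∧ ∀ x ∈ V, ∀ L : E3 →L[ℝ] ℝ, HasFDerivAt p L x →
      L (cross e (x - a)) = 0 := by
  have hn : ‖d‖ ≠ 0 := norm_ne_zero_iff.2 hd
  have hunit : (‖d‖⁻¹ • d) 0 ^ 2 + (‖d‖⁻¹ • d) 1 ^ 2 + (‖d‖⁻¹ • d) 2 ^ 2 = 1 := by
    have h1 : ‖d‖ ^ 2 = d 0 ^ 2 + d 1 ^ 2 + d 2 ^ 2 := by
      rw [EuclideanSpace.norm_sq_eq, Fin.sum_univ_three]
      simp
    simp only [PiLp.smul_apply, smul_eq_mul]
    field_simp
    linarith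
  refine ⟨‖d‖⁻¹ • d, hunit, ?_⟩
  intro x hx L hL
  set e := ‖d‖⁻¹ • d with he
  have hinv : ∀ θ : ℝ, a + rotL e θ (x - a) ∈ V → p (a + rotL e θ (x - a)) = p x := by
    intro θ hθ
    refine h (rotE e hunit θ) (det_rotE e hunit θ) ?_ x hx hθ
    have h1 := rotE_self e hunit θ
    have h2 : d = ‖d‖ • e := by rw [he, smul_smul, mul_inv_cancel₀ hn, one_smul]
    calc (rotE e hunit θ) d = (rotE e hunit θ) (‖d‖ • e) := by rw [← h2]
      _ = ‖d‖ • (rotE e hunit θ) e := by rw [map_smul]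
      _ = ‖d‖ • e := by rw [h1]
      _ = d := h2.symm
  have hcurve : HasDerivAt (fun θ => a + rotL e θ (x - a)) (cross e (x - a)) 0 :=
    (hasDerivAt_rotL e (x - a)).const_add a
  have h0 : a + rotL e 0 (x - a) = x := by rw [rotL_zero]; abel
  have hL' : HasFDerivAt p L (a + rotL e 0 (x - a)) := by rw [h0]; exact hL
  have hcomp : HasDerivAt (fun θ => p (a + rotL e θ (x - a))) (L (cross e (x - a))) 0 :=
    HasFDerivAt.comp_hasDerivAt 0 hL' hcurve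
  have hconst : (fun θ => p (a + rotL e θ (x - a))) =ᶠ[𝓝 0] fun _ => p x := by
    have hc : ContinuousAt (fun θ => a + rotL e θ (x - a)) 0 := hcurve.continuousAt
    have : ∀ᶠ θ in 𝓝 (0:ℝ), a + rotL e θ (x - a) ∈ V := by
      refine hc.eventually_mem ?_
      rw [h0]
      exact hV.mem_nhds hx
    filter_upwards [this] with θ hθ using hinv θ hθ
  have hz : HasDerivAt (fun θ => p (a + rotL e θ (x - a))) 0 0 :=
    (hasDerivAt_const (0:ℝ) (p x)).congr_of_eventuallyEq hconst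
  exact hcomp.unique hz

end Pool.Agent.TH306.Rot
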