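import Mathlib
import Pool.Agent.TH306.GF7
import Pool.Agent.TH306.GF8

set_option autoImplicit false

open Set Filter Topology MeasureTheory
open scoped ContDiff

namespace Pool.Agent.TH306.GF

/-- the screw field -/
noncomputable def Kf (X : E3) : E3 := !₂[-X 1, X 0, 1]

lemma Kf_0 (X : E3) : Kf X 0 = -X 1 := rfl
lemma Kf_1 (X : E3) : Kf X 1 = X 0 := rfl
lemma Kf_2 (X : E3) : Kf X 2 = 1 := rfl

/-- `f` is differentiable at `X` with derivative `c` along the screw field -/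
def KD (f : E3 → ℝ) (c : ℝ) (X : E3) : Prop := ∃ L : E3 →L[ℝ] ℝ, HasFDerivAt f L X ∧ L (Kf X) = c

namespace KD

variable {f g : E3 → ℝ} {c c' : ℝ} {X : E3}

lemma add (hf : KD f c X) (hg : KD g c' X) : KD (fun Y => f Y + g Y) (c + c') X := by
  obtain ⟨L, h1, h2⟩ := hf
  obtain ⟨L', h3, h4⟩ := hg
  exact ⟨L + L', h1.fun_add h3, by rw [add_apply, h2, h4]⟩

lemma neg (hf : KD f c X) : KD (fun Y => -f Y) (-c) X := by
  obtain ⟨L, h1, h2⟩ := hf
  exact ⟨-L, h1.fun_neg, by rw [neg_apply, h2]⟩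

lemma sub (hf : KD f c X) (hg : KD g c' X) : KD (fun Y => f Y - g Y) (c - c') X := by
  obtain ⟨L, h1, h2⟩ := hf
  obtain ⟨L', h3, h4⟩ := hg
  exact ⟨L - L', h1.fun_sub h3, by rw [sub_apply, h2, h4]⟩

lemma mul (hf : KD f c X) (hg : KD g c' X) : KD (fun Y => f Y * g Y) (f X * c' + g X * c) X := by
  obtain ⟨L, h1, h2⟩ := hf
  obtain ⟨L', h3, h4⟩ := hg
  exact ⟨f X • L' + g X • L, h1.fun_mul h3, by
    rw [add_apply, smul_apply, smul_apply, h2, h4, smul_eq_mul, smul_eq_mul]⟩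

lemma const (a : ℝ) (X : E3) : KD (fun _ => a) 0 X :=
  ⟨0, hasFDerivAt_const a X, rfl⟩

lemma c0 (X : E3) : KD (fun Y => Y 0) (-X 1) X := ⟨pr 0, hasFDerivAt_coord 0 X, rfl⟩
lemma c1 (X : E3) : KD (fun Y => Y 1) (X 0) X := ⟨pr 1, hasFDerivAt_coord 1 X, rfl⟩
lemma c2 (X : E3) : KD (fun Y => Y 2) 1 X := ⟨pr 2, hasFDerivAt_coord 2 X, rfl⟩
lemma tt (X : E3) : KD T 0 X := ⟨dT X, hasFDerivAt_T X, by
  simp only [dT, add_apply, smul_apply, smul_eq_mul, pr_apply, Kf_0, Kf_1]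
  ring⟩

lemma congr (h : KD f c X) (e : c = c') : KD f c' X := e ▸ h

lemma zero {V : Set E3} (hV : IsOpen V) (hX : X ∈ V) (h0 : ∀ Y ∈ V, f Y = 0) (h : KD f c X) :
    c = 0 := by
  obtain ⟨L, h1, h2⟩ := h
  have he : f =ᶠ[𝓝 X] fun _ => 0 := by
    filter_upwards [hV.mem_nhds hX] with Y hY using h0 Y hY
  have h3 : HasFDerivAt f (0 : E3 →L[ℝ] ℝ) X :=
    (hasFDerivAt_const (0:ℝ) X).congr_of_eventuallyEq he
  rw [← h2, h1.unique h3]
  rfl

end KD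

namespace Sol

variable {P : Prof} (S : Sol P)
variable {X : E3} (hX : X ∈ S.V)
include hX

lemma D_K : S.D X (Kf X) = 0 := by
  have hT := S.hT hX
  have hx := (S.x'_pos hX).ne'
  have eq1 : √(P.M (T X) (S.φ X)) = S.q X := rfl
  simp only [D, dφ, a0, a1, a2, add_apply, smul_apply, smul_eq_mul, pr_apply, Kf_0, Kf_1, Kf_2,
    eq1]
  field_simp
  unfold T
  ring

lemma K_q : KD S.q 0 X := by
  refine ⟨S.Lq X, S.has_q hX, ?_⟩
  have h1 : dT X (Kf X) = 0 := by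
    simp only [dT, add_apply, smul_apply, smul_eq_mul, pr_apply, Kf_0, Kf_1]
    ring
  simp only [Lq, add_apply, smul_apply, S.D_K hX, h1, smul_eq_mul, mul_zero, add_zero]

lemma K_g : KD S.g 0 X := by
  refine ⟨S.Lg X, S.has_g hX, ?_⟩
  have h1 : dT X (Kf X) = 0 := by
    simp only [dT, add_apply, smul_apply, smul_eq_mul, pr_apply, Kf_0, Kf_1]
    ring
  simp only [Lg, add_apply, smul_apply, S.D_K hX, h1, smul_eq_mul, mul_zero, add_zero]

lemma K_m : KD S.m 0 X := by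
  refine ⟨S.Lm X, S.has_m hX, ?_⟩
  have h1 : dT X (Kf X) = 0 := by
    simp only [dT, add_apply, smul_apply, smul_eq_mul, pr_apply, Kf_0, Kf_1]
    ring
  simp only [Lm, add_apply, smul_apply, S.D_K hX, h1, smul_eq_mul, mul_zero, add_zero]

lemma K_N : KD (fun Y => T Y * S.g Y - S.m Y) 0 X :=
  (((KD.tt X).mul (S.K_g hX)).sub (S.K_m hX)).congr (by ring)

omit hX in
lemma step {V : Set E3} (hV : IsOpen V) (hVS : V ⊆ S.V) {α β α' β' : E3 → ℝ}
    (hα : ∀ Y, KD α (α' Y) Y) (hβ : ∀ Y, KD β (β' Y) Y)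
    (h : ∀ Y ∈ V, (T Y * S.g Y - S.m Y) * α Y + S.q Y * β Y = 0) :
    ∀ Y ∈ V, (T Y * S.g Y - S.m Y) * α' Y + S.q Y * β' Y = 0 := by
  intro Y hY
  have hY' := hVS hY
  have h1 := ((S.K_N hY').mul (hα Y)).add ((S.K_q hY').mul (hβ Y))
  have h2 := KD.zero hV hY h h1
  linear_combination h2

omit hX in
/-- no infinitesimal rotation annihilates the pressure on a nonempty open set -/
theorem no_rotation {V : Set E3} (hV : IsOpen V) (hne : V.Nonempty) (hVS : V ⊆ S.V) (a e : E3)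
    (he : e 0 ^ 2 + e 1 ^ 2 + e 2 ^ 2 = 1)
    (h : ∀ Y ∈ V, S.Lp Y (Rot.cross e (Y - a)) = 0) : False := by
  obtain ⟨b0, hb0⟩ : ∃ b0, b0 = -(e 1 * a 2) + e 2 * a 1 := ⟨_, rfl⟩
  obtain ⟨b1, hb1⟩ : ∃ b1, b1 = -(e 2 * a 0) + e 0 * a 2 := ⟨_, rfl⟩
  obtain ⟨b2, hb2⟩ : ∃ b2, b2 = -(e 0 * a 1) + e 1 * a 0 := ⟨_, rfl⟩
  have heb : e 0 * b0 + e 1 * b1 + e 2 * b2 = 0 := by rw [hb0, hb1, hb2]; ring
  obtain ⟨c, hc⟩ : ∃ c, c = b2 - e 2 := ⟨_, rfl⟩
  let w : E3 → ℝ := fun Y => e 0 * Y 1 - e 1 * Y 0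
  let v : E3 → ℝ := fun Y => e 0 * Y 0 + e 1 * Y 1
  let s : E3 → ℝ := fun Y => b0 * Y 0 + b1 * Y 1
  let y : E3 → ℝ := fun Y => b0 * Y 1 - b1 * Y 0
  have hw : ∀ Y, KD w (v Y) Y := fun Y =>
    (((KD.const (e 0) Y).mul (KD.c1 Y)).sub ((KD.const (e 1) Y).mul (KD.c0 Y))).congr
      (by simp only [v]; ring)
  have hv : ∀ Y, KD v (-w Y) Y := fun Y =>
    (((KD.const (e 0) Y).mul (KD.c0 Y)).add ((KD.const (e 1) Y).mul (KD.c1 Y))).congr
      (by simp only [w]; ring)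
  have hs : ∀ Y, KD s (-y Y) Y := fun Y =>
    (((KD.const b0 Y).mul (KD.c0 Y)).add ((KD.const b1 Y).mul (KD.c1 Y))).congr
      (by simp only [y]; ring)
  have hy : ∀ Y, KD y (s Y) Y := fun Y =>
    (((KD.const b0 Y).mul (KD.c1 Y)).sub ((KD.const b1 Y).mul (KD.c0 Y))).congr
      (by simp only [s]; ring)
  have h0 : ∀ Y ∈ V, (T Y * S.g Y - S.m Y) * (-(Y 2 * w Y) + s Y)
      + S.q Y * (Y 2 * v Y + y Y + T Y * w Y + T Y * c) = 0 := by
    intro Y hY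
    have h1 := h Y hY
    have hT := S.hT (hVS hY)
    have hx := (S.x_pos (hVS hY)).ne'
    have eN : P.N (T Y) (S.φ Y) = T Y * S.g Y - S.m Y := rfl
    rw [S.Lp_eq (hVS hY), eN] at h1
    have k0 : Rot.cross e (Y - a) 0 = e 1 * (Y 2 - a 2) - e 2 * (Y 1 - a 1) := rfl
    have k1 : Rot.cross e (Y - a) 1 = e 2 * (Y 0 - a 0) - e 0 * (Y 2 - a 2) := rfl
    have k2 : Rot.cross e (Y - a) 2 = e 0 * (Y 1 - a 1) - e 1 * (Y 0 - a 0) := rfl
    rw [k0, k1, k2] at h1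
    have hTT : T Y = Y 0 ^ 2 + Y 1 ^ 2 := rfl
    simp only [w, v, s, y, hc, hb0, hb1, hb2]
    generalize S.q Y = qq at *
    generalize S.m Y = mm at *
    generalize S.g Y = gg at *
    generalize P.x (S.φ Y) = xx at *
    rw [hTT] at h1 hT ⊢
    field_simp at h1
    linear_combination (-1 : ℝ) * h1
  have h1 : ∀ Y ∈ V, (T Y * S.g Y - S.m Y) * (-w Y - (Y 2 * v Y + y Y))
      + S.q Y * ((1 + T Y) * v Y + (s Y - Y 2 * w Y)) = 0 := by
    refine S.step hV hVS (α := fun Y => -(Y 2 * w Y) + s Y)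
      (β := fun Y => Y 2 * v Y + y Y + T Y * w Y + T Y * c)
      (α' := fun Y => -w Y - (Y 2 * v Y + y Y))
      (β' := fun Y => (1 + T Y) * v Y + (s Y - Y 2 * w Y)) (fun Y => ?_) (fun Y => ?_) h0
    · exact ((((KD.c2 Y).mul (hw Y)).neg).add (hs Y)).congr (by ring)
    · exact (((((KD.c2 Y).mul (hv Y)).add (hy Y)).add ((KD.tt Y).mul (hw Y))).add
        ((KD.tt Y).mul (KD.const c Y))).congr (by ring)
  have h2 : ∀ Y ∈ V, (T Y * S.g Y - S.m Y) * (-2 * v Y + (Y 2 * w Y - s Y))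
      + S.q Y * (-(2 + T Y) * w Y - y Y - Y 2 * v Y) = 0 := by
    refine S.step hV hVS (α := fun Y => -w Y - (Y 2 * v Y + y Y))
      (β := fun Y => (1 + T Y) * v Y + (s Y - Y 2 * w Y))
      (α' := fun Y => -2 * v Y + (Y 2 * w Y - s Y))
      (β' := fun Y => -(2 + T Y) * w Y - y Y - Y 2 * v Y) (fun Y => ?_) (fun Y => ?_) h1
    · exact ((hw Y).neg.sub (((KD.c2 Y).mul (hv Y)).add (hy Y))).congr (by ring)
    · exact ((((KD.const 1 Y).add (KD.tt Y)).mul (hv Y)).add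
        ((hs Y).sub ((KD.c2 Y).mul (hw Y)))).congr (by ring)
  have hA : ∀ Y ∈ V, (T Y * S.g Y - S.m Y) * (-2 * v Y) + S.q Y * (-2 * w Y + T Y * c) = 0 := by
    intro Y hY
    linear_combination h0 Y hY + h2 Y hY
  have hB : ∀ Y ∈ V, (T Y * S.g Y - S.m Y) * (2 * w Y) + S.q Y * (-2 * v Y) = 0 := by
    refine S.step hV hVS (α := fun Y => -2 * v Y)
      (β := fun Y => -2 * w Y + T Y * c) (α' := fun Y => 2 * w Y)
      (β' := fun Y => -2 * v Y) (fun Y => ?_) (fun Y => ?_) hA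
    · exact ((KD.const (-2) Y).mul (hv Y)).congr (by ring)
    · exact (((KD.const (-2) Y).mul (hw Y)).add ((KD.tt Y).mul (KD.const c Y))).congr (by ring)
  have hC : ∀ Y ∈ V, (T Y * S.g Y - S.m Y) * (2 * v Y) + S.q Y * (2 * w Y) = 0 := by
    refine S.step hV hVS (α := fun Y => 2 * w Y)
      (β := fun Y => -2 * v Y) (α' := fun Y => 2 * v Y)
      (β' := fun Y => 2 * w Y) (fun Y => ?_) (fun Y => ?_) hB
    · exact ((KD.const 2 Y).mul (hw Y)).congr (by ring)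
    · exact ((KD.const (-2) Y).mul (hv Y)).congr (by ring)
  obtain ⟨Y, hY⟩ := hne
  have hq := S.q_pos (hVS hY)
  have hT := S.T_pos (hVS hY)
  have iA := hA Y hY
  have iB := hB Y hY
  have iC := hC Y hY
  have hc0 : c = 0 := by
    have : S.q Y * T Y * c = 0 := by linear_combination iA + iC
    have hne : S.q Y * T Y ≠ 0 := (mul_pos hq hT).ne'
    exact (mul_eq_zero.1 this).resolve_left hne
  have hsum : S.q Y * (v Y ^ 2 + w Y ^ 2) = 0 := by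
    linear_combination (-(v Y) / 2) * iB + (w Y / 2) * iC
  have hvw : v Y ^ 2 + w Y ^ 2 = 0 := (mul_eq_zero.1 hsum).resolve_left hq.ne'
  have hee : (e 0 ^ 2 + e 1 ^ 2) * T Y = 0 := by
    have : (e 0 ^ 2 + e 1 ^ 2) * T Y = v Y ^ 2 + w Y ^ 2 := by
      simp only [v, w, T]
      ring
    rw [this, hvw]
  have he01 : e 0 ^ 2 + e 1 ^ 2 = 0 := (mul_eq_zero.1 hee).resolve_right hT.ne'
  have e0 : e 0 = 0 := by nlinarith [sq_nonneg (e 0), sq_nonneg (e 1)]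
  have e1 : e 1 = 0 := by nlinarith [sq_nonneg (e 0), sq_nonneg (e 1)]
  rw [e0, e1] at heb he
  have hb2' : b2 = e 2 := by linarith
  rw [hb2'] at heb
  have : e 2 ^ 2 = 0 := by linear_combination heb
  rw [this] at he
  norm_num at he

end Sol

end Pool.Agent.TH306.GF
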